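/-
MP_137e81_co (Komlos-Sos tree conjecture), helper94: basic definitions and tools.
-/
import Mathlib

set_option autoImplicit false

namespace KS137

open Finset

/-- `H` with `lam v` pendant vertices attached at every vertex `v`. -/
def leafed {α : Type} (H : SimpleGraph α) (lam : α → ℕ) :
    SimpleGraph (α ⊕ (Σ v : α, Fin (lam v))) where
  Adj x y := match x, y with
    | Sum.inl u, Sum.inl v => H.Adj u v
    | Sum.inl u, Sum.inr p => u = p.1
    | Sum.inr p, Sum.inl v => p.1 = v
    | Sum.inr _, Sum.inr _ => False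
  symm := ⟨by
    rintro (u | p) (v | q) h
    · exact SimpleGraph.Adj.symm h
    · exact Eq.symm h
    · exact Eq.symm h
    · exact h⟩
  loopless := ⟨by
    rintro (u | p) h
    · exact H.loopless.irrefl u h
    · exact h⟩

/-- The Loebl-Komlos-Sos property of a graph `T` with degree threshold `k`: every finite graph with
at least one vertex, at least half of whose vertices have degree at least `k`, contains `T`. -/
def LKS {β : Type} (k : ℕ) (T : SimpleGraph β) : Prop :=
  ∀ (V : Type) [Fintype V] [Nonempty V] (G : SimpleGraph V),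
    Fintype.card V ≤ 2 * {v : V | k ≤ (G.neighborSet v).ncard}.ncard → T.IsContained G

/-- The Erdos-Sos property of a graph `H` on `i` vertices: every finite graph `F` with more than
`(i - 2) |V(F)| / 2` edges contains `H`. -/
def ES {α : Type} [Fintype α] (H : SimpleGraph α) : Prop :=
  ∀ (W : Type) [Fintype W] (F : SimpleGraph W),
    ((Fintype.card α : ℤ) - 2) * Fintype.card W < 2 * (F.edgeSet.ncard : ℤ) → H.IsContained F

/-- a system of distinct representatives, when all sets are large. -/
lemma exists_sdr {Z V : Type} [Fintype Z] [DecidableEq V] (t : Z → Finset V)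
    (h : ∀ z, Fintype.card Z ≤ (t z).card) :
    ∃ f : Z → V, Function.Injective f ∧ ∀ z, f z ∈ t z := by
  classical
  rw [← Finset.all_card_le_biUnion_card_iff_exists_injective]
  intro s
  rcases s.eq_empty_or_nonempty with rfl | ⟨z, hz⟩
  · simp
  · calc s.card ≤ Fintype.card Z := Finset.card_le_univ s
      _ ≤ (t z).card := h z
      _ ≤ (s.biUnion t).card := Finset.card_le_card (Finset.subset_biUnion_of_mem t hz)

/-- attaching the leaves, in two phases: first the leaves at the vertices of `I`, whose hosts have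
many neighbours in `L`, then the others, whose hosts have degree at least `k`. -/
lemma attach {α V : Type} [Fintype α] [DecidableEq α] [Fintype V] [DecidableEq V]
    (H : SimpleGraph α) (lam : α → ℕ) (G : SimpleGraph V) [DecidableRel G.Adj] (L : Finset V)
    (φ : α → V) (hφ : Function.Injective φ) (hadj : ∀ u v, H.Adj u v → G.Adj (φ u) (φ v))
    (I : Finset α) (hI : ∀ v ∈ I, φ v ∉ L)
    (h1 : ∀ v ∈ I, (Fintype.card α - I.card) + ∑ u ∈ I, lam u ≤
      (L.filter fun w => G.Adj (φ v) w).card)
    (h2 : ∀ v ∉ I, Fintype.card α + ∑ u, lam u ≤ (univ.filter fun w => G.Adj (φ v) w).card + 1) :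
    (leafed H lam).IsContained G := by
  classical
  -- phase 1
  let Z1 := Σ v : {v // v ∈ I}, Fin (lam v)
  let t1 : Z1 → Finset V := fun z => (L.filter fun w => G.Adj (φ z.1) w) \ (univ.image φ)
  have hc1 : Fintype.card Z1 = ∑ u ∈ I, lam u := by
    simp only [Z1, Fintype.card_sigma, Fintype.card_fin]
    exact Finset.sum_coe_sort I lam
  have ht1 : ∀ z, Fintype.card Z1 ≤ (t1 z).card := by
    intro z
    have e1 : t1 z = (L.filter fun w => G.Adj (φ z.1) w) \ ((univ \ I).image φ) := by
      ext w
      simp only [t1, mem_sdiff, mem_filter, mem_image, mem_univ, true_and, not_exists]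
      constructor
      · rintro ⟨⟨hw, ha⟩, hn⟩
        exact ⟨⟨hw, ha⟩, fun v hv => hn v hv.2⟩
      · rintro ⟨⟨hw, ha⟩, hn⟩
        refine ⟨⟨hw, ha⟩, fun v hv => ?_⟩
        by_cases hvI : v ∈ I
        · exact hI v hvI (hv ▸ hw)
        · exact hn v ⟨hvI, hv⟩
    have e2 : ((univ \ I).image φ).card ≤ Fintype.card α - I.card := by
      refine Finset.card_image_le.trans ?_
      rw [Finset.card_sdiff_of_subset (Finset.subset_univ I), Finset.card_univ]
    have e3 := Finset.le_card_sdiff ((univ \ I).image φ) (L.filter fun w => G.Adj (φ z.1) w)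
    have e4 := h1 z.1 z.1.2
    rw [e1, hc1]
    omega
  obtain ⟨ψ1, hψ1, hψ1m⟩ := exists_sdr t1 ht1
  -- phase 2
  let Z2 := Σ v : {v // v ∉ I}, Fin (lam v)
  let t2 : Z2 → Finset V := fun z =>
    (univ.filter fun w => G.Adj (φ z.1) w) \ ((univ.image φ).erase (φ z.1) ∪ univ.image ψ1)
  have hc2 : Fintype.card Z2 + ∑ u ∈ I, lam u = ∑ u, lam u := by
    simp only [Z2, Fintype.card_sigma, Fintype.card_fin]
    have : ∑ v : {v // v ∉ I}, lam v = ∑ u ∈ univ \ I, lam u := by
      rw [← Finset.sum_coe_sort (univ \ I) lam]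
      refine Fintype.sum_equiv (Equiv.subtypeEquivRight fun v => by simp) _ _ fun v => rfl
    rw [this, Finset.sum_sdiff (Finset.subset_univ I)]
  have ht2 : ∀ z, Fintype.card Z2 ≤ (t2 z).card := by
    intro z
    have e2 : ((univ.image φ).erase (φ z.1) ∪ univ.image ψ1).card ≤
        (Fintype.card α - 1) + ∑ u ∈ I, lam u := by
      refine (Finset.card_union_le _ _).trans (add_le_add ?_ ?_)
      · rw [Finset.card_erase_of_mem (Finset.mem_image_of_mem φ (Finset.mem_univ _)),
          Finset.card_image_of_injective _ hφ, Finset.card_univ]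
      · rw [← hc1]
        exact Finset.card_image_le.trans (le_of_eq Finset.card_univ)
    have e3 := Finset.le_card_sdiff ((univ.image φ).erase (φ z.1) ∪ univ.image ψ1)
      (univ.filter fun w => G.Adj (φ z.1) w)
    have e4 := h2 z.1 z.1.2
    have e5 : 0 < Fintype.card α := Fintype.card_pos_iff.2 ⟨z.1.1⟩
    simp only [t2]
    omega
  obtain ⟨ψ2, hψ2, hψ2m⟩ := exists_sdr t2 ht2
  -- the embedding
  let ψ : (Σ v : α, Fin (lam v)) → V := fun z =>
    if h : z.1 ∈ I then ψ1 ⟨⟨z.1, h⟩, z.2⟩ else ψ2 ⟨⟨z.1, h⟩, z.2⟩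
  have hψadj : ∀ z, G.Adj (φ z.1) (ψ z) := by
    rintro ⟨v, j⟩
    by_cases h : v ∈ I
    · have := hψ1m ⟨⟨v, h⟩, j⟩
      simp only [t1, mem_sdiff, mem_filter] at this
      simpa [ψ, h] using this.1.2
    · have := hψ2m ⟨⟨v, h⟩, j⟩
      simp only [t2, mem_sdiff, mem_filter] at this
      simpa [ψ, h] using this.1.2
  have hψφ : ∀ z v, ψ z ≠ φ v := by
    rintro ⟨u, j⟩ v
    by_cases h : u ∈ I
    · have := hψ1m ⟨⟨u, h⟩, j⟩
      simp only [t1, mem_sdiff, mem_image, mem_univ, true_and, not_exists] at this
      intro he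
      simp only [ψ, h, dif_pos] at he
      exact this.2 v he.symm
    · have := hψ2m ⟨⟨u, h⟩, j⟩
      simp only [t2, mem_sdiff, mem_union, mem_erase, mem_image, mem_filter, mem_univ, true_and,
        not_or, not_and, not_exists] at this
      intro he
      simp only [ψ, h, dif_neg, not_false_eq_true] at he
      by_cases hv : φ v = φ u
      · have h3 := this.1
        rw [he, hv] at h3
        exact G.loopless.irrefl _ h3
      · exact this.2.1 (by rw [he]; exact hv) v he.symm
  have hψinj : Function.Injective ψ := by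
    rintro ⟨u, j⟩ ⟨v, l⟩ he
    by_cases hu : u ∈ I
    · by_cases hv : v ∈ I
      · simp only [ψ, hu, hv, dif_pos] at he
        have := hψ1 he
        cases this
        rfl
      · exfalso
        have := hψ2m ⟨⟨v, hv⟩, l⟩
        simp only [t2, mem_sdiff, mem_union, mem_image, mem_univ, true_and, not_or,
          not_exists] at this
        simp only [ψ, hu, hv, dif_pos, dif_neg, not_false_eq_true] at he
        exact this.2.2 _ he
    · by_cases hv : v ∈ I
      · exfalso
        have := hψ2m ⟨⟨u, hu⟩, j⟩
        simp only [t2, mem_sdiff, mem_union, mem_image, mem_univ, true_and, not_or,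
          not_exists] at this
        simp only [ψ, hu, hv, dif_pos, dif_neg, not_false_eq_true] at he
        exact this.2.2 _ he.symm
      · simp only [ψ, hu, hv, dif_neg, not_false_eq_true] at he
        have := hψ2 he
        cases this
        rfl
  let Φ : α ⊕ (Σ v : α, Fin (lam v)) → V := Sum.elim φ ψ
  have hΦ : Function.Injective Φ := by
    rintro (u | p) (v | q) he
    · exact congrArg Sum.inl (hφ he)
    · exact absurd he.symm (hψφ q u)
    · exact absurd he (hψφ p v)
    · exact congrArg Sum.inr (hψinj he)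
  refine ⟨⟨⟨Φ, ?_⟩, hΦ⟩⟩
  rintro (u | p) (v | q) h
  · exact hadj u v h
  · have h' : u = q.1 := h
    subst h'
    exact hψadj q
  · have h' : p.1 = v := h
    subst h'
    exact (hψadj p).symm
  · exact h.elim

end KS137
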