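/-
MP_137e81_co (Komlos-Sos tree conjecture), helper94: the dense auxiliary graph, and the transfer
theorem: the Erdos-Sos property of the inner tree implies the Loebl-Komlos-Sos property.
-/
import Pool.Agent.H.MP_137e81_co.Basic

set_option autoImplicit false

namespace KS137

open Finset

lemma ncard_nbr {V : Type} [Fintype V] (G : SimpleGraph V) [DecidableRel G.Adj] (v : V) :
    (G.neighborSet v).ncard = (univ.filter fun w => G.Adj v w).card := by
  rw [Set.ncard_eq_toFinset_card']
  congr 1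
  ext w
  simp

lemma card_filter_eq {V : Type} (G : SimpleGraph V) [DecidableRel G.Adj] (A : Finset V) (v : V) :
    ((A.filter fun w => G.Adj v w).card : ℤ) = ∑ w ∈ A, (if G.Adj v w then (1 : ℤ) else 0) := by
  rw [Finset.card_filter]
  push_cast
  rfl

lemma double_count {V : Type} (G : SimpleGraph V) [DecidableRel G.Adj] (A B : Finset V) :
    ∑ v ∈ A, ∑ w ∈ B, (if G.Adj v w then (1 : ℤ) else 0) =
      ∑ w ∈ B, ∑ v ∈ A, (if G.Adj w v then (1 : ℤ) else 0) := by
  rw [Finset.sum_comm]
  refine Finset.sum_congr rfl fun w _ => Finset.sum_congr rfl fun v _ => ?_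
  simp only [G.adj_comm v w]

section aux
variable {V : Type} [Fintype V] [DecidableEq V] (G : SimpleGraph V) [DecidableRel G.Adj] (k a : ℕ)

/-- the vertices of degree at least `k`. -/
def Lg : Finset V := univ.filter fun v => k ≤ (univ.filter fun w => G.Adj v w).card

/-- the other vertices with at least `a` neighbours in `Lg`. -/
def Sg : Finset V :=
  (univ \ Lg G k).filter fun s => a ≤ ((Lg G k).filter fun w => G.Adj s w).card

/-- the auxiliary graph. -/
def Fg : SimpleGraph {v // v ∈ Lg G k ∪ Sg G k a} where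
  Adj u v := G.Adj u v ∧ ((u : V) ∈ Lg G k ∨ (v : V) ∈ Lg G k)
  symm := ⟨fun _ _ h => ⟨h.1.symm, h.2.symm⟩⟩
  loopless := ⟨fun _ h => G.loopless.irrefl _ h.1⟩

variable {G k a}

lemma mem_Lg {v : V} : v ∈ Lg G k ↔ k ≤ (univ.filter fun w => G.Adj v w).card := by
  simp [Lg]

lemma card_Lg : {v : V | k ≤ (G.neighborSet v).ncard}.ncard = (Lg G k).card := by
  classical
  rw [Set.ncard_eq_toFinset_card']
  congr 1
  ext v
  simp [mem_Lg, ncard_nbr]

/-- THE COUNTING LEMMA: the auxiliary graph is dense. -/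
theorem Fg_dense [Nonempty V] (m : ℤ) (h1 : m + a ≤ k) (h2 : m + 1 ≤ 2 * a) (ha : 1 ≤ a)
    (hG : Fintype.card V ≤ 2 * (Lg G k).card) :
    m * Fintype.card {v // v ∈ Lg G k ∪ Sg G k a} < 2 * ((Fg G k a).edgeSet.ncard : ℤ) := by
  classical
  set L := Lg G k with hL
  set Sa := Sg G k a with hSa
  set F := Fg G k a with hF
  have hLpos : 0 < L.card := by
    have : 0 < Fintype.card V := Fintype.card_pos
    omega
  set S : Finset V := univ \ L with hS
  have hScard : S.card + L.card = Fintype.card V := by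
    rw [hS, Finset.card_sdiff_of_subset (Finset.subset_univ L), Finset.card_univ]
    have := Finset.card_le_univ L
    omega
  have hSa2 : Sa = S.filter fun s => a ≤ (L.filter fun w => G.Adj s w).card := rfl
  have hdisj : Disjoint L Sa := by
    rw [Finset.disjoint_left]
    intro v hv hv2
    simp only [hSa2, hS, mem_filter, mem_sdiff, mem_univ, true_and] at hv2
    exact hv2.1 hv
  have hFc : Fintype.card {v // v ∈ L ∪ Sa} = L.card + Sa.card := by
    rw [Fintype.card_coe, Finset.card_union_of_disjoint hdisj]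
  set A : ℤ := ∑ v ∈ L, ∑ w ∈ L, (if G.Adj v w then (1 : ℤ) else 0) with hA
  set B : ℤ := ∑ v ∈ Sa, ∑ w ∈ L, (if G.Adj v w then (1 : ℤ) else 0) with hB
  have hFe : 2 * (F.edgeSet.ncard : ℤ) = A + 2 * B := by
    have h1 := F.sum_degrees_eq_twice_card_edges
    have h2 : F.edgeSet.ncard = F.edgeFinset.card := by
      rw [Set.ncard_eq_toFinset_card']
      rfl
    have h3 : 2 * (F.edgeSet.ncard : ℤ) = ∑ a : {v // v ∈ L ∪ Sa}, (F.degree a : ℤ) := by
      rw [h2]; exact_mod_cast h1.symm
    have h4 : ∀ a : {v // v ∈ L ∪ Sa}, (F.degree a : ℤ) =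
        ∑ w ∈ L ∪ Sa, (if G.Adj a w ∧ ((a : V) ∈ L ∨ w ∈ L) then (1 : ℤ) else 0) := by
      intro a
      rw [← SimpleGraph.card_neighborFinset_eq_degree,
        ← Finset.sum_coe_sort (L ∪ Sa)
          (fun w => (if G.Adj a w ∧ ((a : V) ∈ L ∨ w ∈ L) then (1 : ℤ) else 0)),
        Finset.sum_boole]
      congr 2
      ext b
      simp [hF, Fg, hL]
    rw [h3]
    simp only [h4]
    rw [Finset.sum_coe_sort (L ∪ Sa)
      (fun v => ∑ w ∈ L ∪ Sa, (if G.Adj v w ∧ (v ∈ L ∨ w ∈ L) then (1 : ℤ) else 0)),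
      Finset.sum_union hdisj]
    have h5 : ∑ v ∈ L, ∑ w ∈ L ∪ Sa, (if G.Adj v w ∧ (v ∈ L ∨ w ∈ L) then (1 : ℤ) else 0) =
        A + ∑ v ∈ L, ∑ w ∈ Sa, (if G.Adj v w then (1 : ℤ) else 0) := by
      rw [hA, ← Finset.sum_add_distrib]
      refine Finset.sum_congr rfl fun v hv => ?_
      rw [Finset.sum_union hdisj]
      simp [hv]
    have h6 : ∑ v ∈ Sa, ∑ w ∈ L ∪ Sa, (if G.Adj v w ∧ (v ∈ L ∨ w ∈ L) then (1 : ℤ) else 0) =
        B := by
      rw [hB]
      refine Finset.sum_congr rfl fun v hv => ?_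
      have hvL : v ∉ L := fun h => (Finset.disjoint_left.1 hdisj h hv)
      rw [Finset.sum_union hdisj]
      have h7 : ∑ w ∈ Sa, (if G.Adj v w ∧ (v ∈ L ∨ w ∈ L) then (1 : ℤ) else 0) = 0 := by
        refine Finset.sum_eq_zero fun w hw => ?_
        have hwL : w ∉ L := fun h => (Finset.disjoint_left.1 hdisj h hw)
        simp [hvL, hwL]
      rw [h7, add_zero]
      refine Finset.sum_congr rfl fun w hw => ?_
      simp [hw]
    rw [h5, h6, double_count G L Sa]
    ring
  rw [hFe, hFc]
  push_cast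
  by_contra hcase
  push Not at hcase
  have hkL : (k : ℤ) * L.card ≤ ∑ v ∈ L, ∑ w, (if G.Adj v w then (1 : ℤ) else 0) := by
    rw [mul_comm, ← nsmul_eq_mul, ← Finset.sum_const]
    refine Finset.sum_le_sum fun v hv => ?_
    rw [← card_filter_eq]
    exact_mod_cast mem_Lg.1 hv
  have hsplit : ∑ v ∈ L, ∑ w, (if G.Adj v w then (1 : ℤ) else 0) =
      A + ∑ v ∈ S, ∑ w ∈ L, (if G.Adj v w then (1 : ℤ) else 0) := by
    rw [← double_count G L S, hA, ← Finset.sum_add_distrib]
    refine Finset.sum_congr rfl fun v _ => ?_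
    rw [hS, add_comm, Finset.sum_sdiff (Finset.subset_univ L)]
  have hSaS : Sa ⊆ S := Finset.filter_subset _ _
  have hS2 : ∑ v ∈ S, ∑ w ∈ L, (if G.Adj v w then (1 : ℤ) else 0) ≤
      B + ((a : ℤ) - 1) * ((S.card : ℤ) - Sa.card) := by
    rw [← Finset.sum_sdiff hSaS, add_comm, hB]
    refine add_le_add le_rfl ?_
    have h1 : ((S \ Sa).card : ℤ) = (S.card : ℤ) - Sa.card := by
      rw [Finset.card_sdiff_of_subset hSaS, Nat.cast_sub (Finset.card_le_card hSaS)]
    rw [← h1, mul_comm, ← nsmul_eq_mul, ← Finset.sum_const]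
    refine Finset.sum_le_sum fun v hv => ?_
    rw [← card_filter_eq]
    rw [Finset.mem_sdiff] at hv
    have h2 : ¬ (a ≤ (L.filter fun w => G.Adj v w).card) := fun h =>
      hv.2 (by rw [hSa2]; exact Finset.mem_filter.2 ⟨hv.1, h⟩)
    push Not at h2
    omega
  have hB2 : (a : ℤ) * Sa.card ≤ B := by
    rw [mul_comm, ← nsmul_eq_mul, ← Finset.sum_const, hB]
    refine Finset.sum_le_sum fun v hv => ?_
    rw [← card_filter_eq]
    exact_mod_cast (Finset.mem_filter.1 hv).2
  have hSL : (S.card : ℤ) ≤ L.card := by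
    have : S.card ≤ L.card := by omega
    exact_mod_cast this
  have hSa0 : (0 : ℤ) ≤ Sa.card := by positivity
  have hL0 : (0 : ℤ) < L.card := by exact_mod_cast hLpos
  have ha' : (0 : ℤ) ≤ (a : ℤ) - 1 := by
    have : (1 : ℤ) ≤ a := by exact_mod_cast ha
    linarith
  have e1 := mul_nonneg ha' (sub_nonneg.2 hSL)
  have e2 := mul_nonneg (sub_nonneg.2 h2) hSa0
  have e3 := mul_nonneg (sub_nonneg.2 h1) hL0.le
  nlinarith

/-- From a copy of `H` in the auxiliary graph to a copy of `leafed H lam`. -/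
theorem attach_Fg {α : Type} [Fintype α] [DecidableEq α] (H : SimpleGraph α) (lam : α → ℕ)
    (f : α → {v // v ∈ Lg G k ∪ Sg G k a}) (hf : Function.Injective f)
    (hadj : ∀ u v, H.Adj u v → (Fg G k a).Adj (f u) (f v))
    (hk : Fintype.card α + ∑ v, lam v ≤ k + 1)
    (hI : Fintype.card α - (univ.filter fun v => (f v : V) ∉ Lg G k).card +
      ∑ v ∈ univ.filter (fun v => (f v : V) ∉ Lg G k), lam v ≤ a) :
    (leafed H lam).IsContained G := by
  refine attach H lam G (Lg G k) (fun v => f v) (fun u v h => hf (Subtype.ext h))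
    (fun u v h => (hadj u v h).1) (univ.filter fun v => (f v : V) ∉ Lg G k)
    (fun v hv => (Finset.mem_filter.1 hv).2) ?_ ?_
  · intro v hv
    have h1 : (f v : V) ∈ Sg G k a := by
      rcases Finset.mem_union.1 (f v).2 with h | h
      · exact absurd h (Finset.mem_filter.1 hv).2
      · exact h
    exact hI.trans (Finset.mem_filter.1 h1).2
  · intro v hv
    have h1 : (f v : V) ∈ Lg G k := by
      by_contra h
      exact hv (Finset.mem_filter.2 ⟨Finset.mem_univ _, h⟩)
    have h2 := mem_Lg.1 h1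
    exact hk.trans (Nat.add_le_add_right h2 1)

end aux

/-- TRANSFER THEOREM: the Erdos-Sos property of `H` implies the Loebl-Komlos-Sos property of
`leafed H lam`. -/
theorem transfer {α : Type} [Fintype α] [Nonempty α] (H : SimpleGraph α) (lam : α → ℕ)
    (hES : ES H)
    (hcond : ∀ J : Finset α, (∀ u ∉ J, ∀ v ∉ J, ¬ H.Adj u v) → J.card ≤ ∑ v ∈ J, lam v + 1) :
    LKS (Fintype.card α - 1 + ∑ v, lam v) (leafed H lam) := by
  classical
  intro V _ _ G hG
  set i := Fintype.card α with hi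
  set l := ∑ v, lam v with hl
  have hi1 : 1 ≤ i := Fintype.card_pos
  set k := i - 1 + l with hk
  rw [card_Lg] at hG
  have hil : i ≤ l + 1 := by
    have := hcond univ (by simp)
    simpa [hi, hl] using this
  have hd := Fg_dense (G := G) (k := k) (a := l + 1) ((i : ℤ) - 2) (by push_cast; omega)
    (by push_cast; omega) (by omega) hG
  obtain ⟨f⟩ := hES _ (Fg G k (l + 1)) (by rw [← hi]; exact hd)
  have hadjF : ∀ u v, H.Adj u v → (Fg G k (l + 1)).Adj (f u) (f v) :=
    fun u v h => f.toHom.map_adj h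
  refine attach_Fg H lam (fun v => f v) f.injective hadjF (by omega) ?_
  set I : Finset α := univ.filter fun v => (f v : V) ∉ Lg G k with hI
  have hc := hcond (univ \ I) (by
    intro u hu v hv h
    simp only [hI, mem_sdiff, mem_univ, true_and, mem_filter, not_not] at hu hv
    rcases (hadjF u v h).2 with h1 | h1
    · exact hu h1
    · exact hv h1)
  have hc2 : (univ \ I).card = i - I.card := by
    rw [Finset.card_sdiff_of_subset (Finset.subset_univ I), Finset.card_univ]
  have hc3 : ∑ v ∈ univ \ I, lam v + ∑ v ∈ I, lam v = l := Finset.sum_sdiff (Finset.subset_univ I)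
  rw [hc2] at hc
  omega

end KS137
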