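/-
MP_137e81_co (Komlos-Sos tree conjecture), helper94: greedy embedding of trees and peeling.
-/
import Pool.Agent.H.MP_137e81_co.Transfer

set_option autoImplicit false

namespace KS137

open Finset

/-- Greedy embedding of a tree whose two colour classes are hosted in `P true` and `P false`. -/
theorem greedy {V : Type} [DecidableEq V] (G : SimpleGraph V) [DecidableRel G.Adj]
    (P : Bool → Finset V) (m : ℕ)
    (hP : ∀ b, ∀ w ∈ P b, m ≤ ((P (!b)).filter fun z => G.Adj w z).card) :
    ∀ (n : ℕ) (α : Type) [Fintype α] (H : SimpleGraph α) (side : α → Bool),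
      Fintype.card α = n → n ≤ m + 1 → H.IsTree → (∀ u v, H.Adj u v → side u ≠ side v) →
      (∀ v, (P (side v)).Nonempty) →
      ∃ φ : α → V, Function.Injective φ ∧ (∀ v, φ v ∈ P (side v)) ∧
        ∀ u v, H.Adj u v → G.Adj (φ u) (φ v) := by
  classical
  intro n
  induction n with
  | zero =>
    intro α _ H side hc _ hH _ _
    have : Nonempty α := hH.connected.nonempty
    have : 0 < Fintype.card α := Fintype.card_pos
    omega
  | succ n ih =>
    intro α _ H side hc hm hH hside hne
    by_cases hn : n = 0
    · -- a single vertex
      subst hn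
      have hsub : Subsingleton α := Fintype.card_le_one_iff_subsingleton.1 (by omega)
      have : Nonempty α := hH.connected.nonempty
      obtain ⟨a⟩ := this
      obtain ⟨w, hw⟩ := hne a
      refine ⟨fun _ => w, fun x y _ => Subsingleton.elim x y, fun v => ?_, fun u v h => ?_⟩
      · rw [Subsingleton.elim v a]; exact hw
      · rw [Subsingleton.elim u v] at h
        exact (H.loopless.irrefl v h).elim
    · have : Nontrivial α := Fintype.one_lt_card_iff_nontrivial.1 (by omega)
      obtain ⟨v, hv⟩ := hH.exists_vert_degree_one_of_nontrivial
      obtain ⟨u, hu⟩ := (H.degree_eq_one_iff_existsUnique_adj).1 hv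
      have hconn := hH.connected.induce_compl_singleton_of_degree_eq_one hv
      have hH' : (H.induce ({v}ᶜ : Set α)).IsTree := ⟨hconn, hH.isAcyclic.induce _⟩
      have hcard : Fintype.card (({v}ᶜ : Set α) : Type) = n := by
        have := Fintype.card_compl_set ({v} : Set α)
        rw [Set.card_singleton, hc] at this
        rw [this]
        omega
      obtain ⟨φ', hφ', hφm, hφa⟩ := ih (({v}ᶜ : Set α) : Type) (H.induce ({v}ᶜ : Set α))
        (fun x => side x) hcard (by omega) hH' (fun x y h => hside x y h) (fun x => hne x)
      have huv : u ≠ v := fun h => H.loopless.irrefl v (h ▸ hu.1)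
      let u' : (({v}ᶜ : Set α) : Type) := ⟨u, huv⟩
      -- a free neighbour
      have hsv : side v = !(side u) := by
        have := hside v u hu.1
        cases h1 : side v <;> cases h2 : side u <;> simp_all
      have hcount : ((univ.image φ').erase (φ' u')).card <
          ((P (side v)).filter fun z => G.Adj (φ' u') z).card := by
        have h1 := hP (side u) (φ' u') (hφm u')
        rw [← hsv] at h1
        rw [Finset.card_erase_of_mem (Finset.mem_image_of_mem _ (Finset.mem_univ _)),
          Finset.card_image_of_injective _ hφ', Finset.card_univ, hcard]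
        omega
      obtain ⟨w, hw, hwn⟩ := Finset.exists_mem_notMem_of_card_lt_card hcount
      rw [Finset.mem_filter] at hw
      have hwne : ∀ x, φ' x ≠ w := by
        intro x hx
        apply hwn
        rw [Finset.mem_erase]
        refine ⟨?_, hx ▸ Finset.mem_image_of_mem _ (Finset.mem_univ _)⟩
        rintro rfl
        exact G.loopless.irrefl _ hw.2
      let φ : α → V := fun x => if h : x = v then w else φ' ⟨x, h⟩
      have hφv : φ v = w := by simp [φ]
      have hφx : ∀ (x : α) (h : x ≠ v), φ x = φ' ⟨x, h⟩ := by
        intro x h
        simp only [φ, h, dif_neg, not_false_eq_true]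
      refine ⟨φ, ?_, ?_, ?_⟩
      · intro x y hxy
        by_cases hx : x = v
        · by_cases hy : y = v
          · rw [hx, hy]
          · rw [hx, hφv, hφx y hy] at hxy
            exact (hwne _ hxy.symm).elim
        · by_cases hy : y = v
          · rw [hy, hφv, hφx x hx] at hxy
            exact (hwne _ hxy).elim
          · rw [hφx x hx, hφx y hy] at hxy
            exact congrArg Subtype.val (hφ' hxy)
      · intro x
        by_cases hx : x = v
        · rw [hx, hφv]; exact hw.1
        · rw [hφx x hx]
          exact hφm ⟨x, hx⟩
      · intro x y hxy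
        by_cases hx : x = v
        · have hy : y = u := hu.2 y (hx ▸ hxy)
          rw [hx, hy, hφv, hφx u huv]
          exact hw.2.symm
        · by_cases hy : y = v
          · have hx' : x = u := hu.2 x (hy ▸ hxy.symm)
            rw [hy, hx', hφv, hφx u huv]
            exact hw.2
          · rw [hφx x hx, hφx y hy]
            exact hφa ⟨x, hx⟩ ⟨y, hy⟩ hxy

/-- Peeling of a bipartite incidence structure. -/
theorem peel {V : Type} [DecidableEq V] (G : SimpleGraph V) [DecidableRel G.Adj]
    (α β : V → ℕ) : ∀ (n : ℕ) (A B : Finset V), A.card + B.card = n →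
    ∑ v ∈ A, α v + ∑ w ∈ B, β w < ∑ v ∈ A, (B.filter fun w => G.Adj v w).card →
    ∃ A' B' : Finset V, A' ⊆ A ∧ B' ⊆ B ∧ A'.Nonempty ∧ B'.Nonempty ∧
      (∀ v ∈ A', α v < (B'.filter fun w => G.Adj v w).card) ∧
      (∀ w ∈ B', β w < (A'.filter fun v => G.Adj w v).card) := by
  intro n
  induction n with
  | zero =>
    intro A B h hlt
    have hA : A = ∅ := Finset.card_eq_zero.1 (by omega)
    subst hA
    simp at hlt
  | succ n ih =>
    intro A B h hlt
    by_cases h1 : ∃ v ∈ A, (B.filter fun w => G.Adj v w).card ≤ α v
    · obtain ⟨v, hv, hle⟩ := h1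
      have hc : (A.erase v).card + B.card = n := by
        rw [Finset.card_erase_of_mem hv]
        have : 0 < A.card := Finset.card_pos.2 ⟨v, hv⟩
        omega
      have hlt' : ∑ v ∈ A.erase v, α v + ∑ w ∈ B, β w <
          ∑ v ∈ A.erase v, (B.filter fun w => G.Adj v w).card := by
        rw [← Finset.sum_erase_add _ _ hv, ← Finset.sum_erase_add A
          (fun v => (B.filter fun w => G.Adj v w).card) hv] at hlt
        omega
      obtain ⟨A', B', hA, hB, r⟩ := ih _ _ hc hlt'
      exact ⟨A', B', hA.trans (Finset.erase_subset _ _), hB, r⟩
    · by_cases h2 : ∃ w ∈ B, (A.filter fun v => G.Adj w v).card ≤ β w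
      · obtain ⟨w, hw, hle⟩ := h2
        have hc : A.card + (B.erase w).card = n := by
          rw [Finset.card_erase_of_mem hw]
          have : 0 < B.card := Finset.card_pos.2 ⟨w, hw⟩
          omega
        have hsum : ∑ v ∈ A, (B.filter fun z => G.Adj v z).card =
            ∑ v ∈ A, ((B.erase w).filter fun z => G.Adj v z).card +
              (A.filter fun v => G.Adj w v).card := by
          rw [Finset.card_filter, ← Finset.sum_add_distrib]
          refine Finset.sum_congr rfl fun v _ => ?_
          rw [Finset.card_filter, Finset.card_filter, ← Finset.sum_erase_add _ _ hw]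
          simp only [G.adj_comm w v]
        have hlt' : ∑ v ∈ A, α v + ∑ w ∈ B.erase w, β w <
            ∑ v ∈ A, ((B.erase w).filter fun w => G.Adj v w).card := by
          rw [hsum, ← Finset.sum_erase_add _ _ hw] at hlt
          omega
        obtain ⟨A', B', hA, hB, r⟩ := ih _ _ hc hlt'
        exact ⟨A', B', hA, hB.trans (Finset.erase_subset _ _), r⟩
      · push Not at h1 h2
        have hAne : A.Nonempty := by
          by_contra hA
          rw [Finset.not_nonempty_iff_eq_empty] at hA
          subst hA
          simp at hlt
        have hBne : B.Nonempty := by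
          by_contra hB
          rw [Finset.not_nonempty_iff_eq_empty] at hB
          subst hB
          simp at hlt
        exact ⟨A, B, subset_rfl, subset_rfl, hAne, hBne, h1, h2⟩

end KS137
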