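/-
MP_137e81_co (Komlos-Sos tree conjecture), helper94: trees with few internal vertices.
-/
import Pool.Agent.H.MP_137e81_co.Greedy

set_option autoImplicit false

namespace KS137

open Finset

/-- the core: one colour class of the inner tree is hosted by large vertices only. -/
theorem few_core {α : Type} [Fintype α] (H : SimpleGraph α) (hH : H.IsTree) (lam : α → ℕ)
    (side : α → Bool) (hside : ∀ u v, H.Adj u v → side u ≠ side v)
    (a : ℕ) (ha : ∑ v, (if side v then 1 else max 1 (lam v)) ≤ a)
    (k : ℕ) (hk : Fintype.card α + ∑ v, lam v ≤ k + 1)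
    (hlt : 2 * (Fintype.card α - 2) + a ≤ k) : LKS k (leafed H lam) := by
  classical
  intro V _ _ G hG
  rw [card_Lg] at hG
  set L := Lg G k with hL
  set i := Fintype.card α with hi
  have : Nonempty α := hH.connected.nonempty
  have hi1 : 1 ≤ i := Fintype.card_pos
  have hia : i ≤ a := by
    refine le_trans ?_ ha
    calc i = ∑ v : α, 1 := by simp [hi]
      _ ≤ _ := by
        refine Finset.sum_le_sum fun v _ => ?_
        split_ifs
        · exact le_rfl
        · exact le_max_left _ _
  have hLpos : 0 < L.card := by
    have : 0 < Fintype.card V := Fintype.card_pos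
    omega
  -- peeling
  let β : V → ℕ := fun w => if w ∈ L then i - 2 else a - 1
  have hsumL : ∑ w ∈ (univ : Finset V), β w = L.card * (i - 2) + (Fintype.card V - L.card) * (a - 1) := by
    rw [← Finset.sum_sdiff (Finset.subset_univ L), add_comm]
    congr 1
    · rw [← smul_eq_mul, ← Finset.sum_const]
      exact Finset.sum_congr rfl fun w hw => by simp [β, hw]
    · have h1 : (univ \ L).card = Fintype.card V - L.card := by
        rw [Finset.card_sdiff_of_subset (Finset.subset_univ L), Finset.card_univ]
      rw [← h1, ← smul_eq_mul, ← Finset.sum_const]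
      refine Finset.sum_congr rfl fun w hw => ?_
      have : w ∉ L := (Finset.mem_sdiff.1 hw).2
      simp [β, this]
  have hedges : L.card * k ≤ ∑ v ∈ L, ((univ : Finset V).filter fun w => G.Adj v w).card := by
    rw [← smul_eq_mul, ← Finset.sum_const]
    exact Finset.sum_le_sum fun v hv => mem_Lg.1 hv
  have hlt2 : ∑ v ∈ L, (fun _ : V => i - 2) v + ∑ w ∈ (univ : Finset V), β w <
      ∑ v ∈ L, ((univ : Finset V).filter fun w => G.Adj v w).card := by
    refine lt_of_lt_of_le ?_ hedges
    rw [hsumL, Finset.sum_const, smul_eq_mul]
    have h1 : (Fintype.card V - L.card) * (a - 1) ≤ L.card * (a - 1) :=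
      Nat.mul_le_mul_right _ (by omega)
    have h2 : L.card * (i - 2) + (L.card * (i - 2) + L.card * (a - 1)) < L.card * k := by
      rw [← Nat.mul_add, ← Nat.mul_add]
      exact Nat.mul_lt_mul_of_pos_left (by omega) hLpos
    omega
  obtain ⟨A, B, hAL, -, hA, hB, hA2, hB2⟩ := peel G (fun _ => i - 2) β _ L univ rfl hlt2
  -- greedy embedding
  let P : Bool → Finset V := fun b => if b then A else B
  have hP : ∀ b, ∀ w ∈ P b, i - 1 ≤ ((P (!b)).filter fun z => G.Adj w z).card := by
    intro b w hw
    cases b
    · have hw' : w ∈ B := by simpa [P] using hw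
      have h1 := hB2 w hw'
      have h2 : (P (!false)) = A := by simp [P]
      rw [h2]
      by_cases hwL : w ∈ L
      · simp only [β, hwL, if_true] at h1
        omega
      · simp only [β, hwL, if_false] at h1
        omega
    · have hw' : w ∈ A := by simpa [P] using hw
      have h1 := hA2 w hw'
      have h2 : (P (!true)) = B := by simp [P]
      rw [h2]
      omega
  obtain ⟨φ, hφ, hφm, hφa⟩ := greedy G P (i - 1) hP i α H side rfl (by omega) hH hside
    (fun v => by cases side v <;> simpa [P])
  -- the leaves
  set I : Finset α := univ.filter fun v => φ v ∉ L with hI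
  have hIside : ∀ v ∈ I, side v = false := by
    intro v hv
    by_contra h
    have h1 : side v = true := by simpa using h
    have h2 := hφm v
    rw [h1] at h2
    have h3 : φ v ∈ A := by simpa [P] using h2
    exact (Finset.mem_filter.1 hv).2 (hAL h3)
  refine attach H lam G L φ hφ hφa I (fun v hv => (Finset.mem_filter.1 hv).2) ?_ ?_
  · intro v hv
    have h1 := hφm v
    rw [hIside v hv] at h1
    have h2 : φ v ∈ B := by simpa [P] using h1
    have h3 := hB2 _ h2
    have h4 : φ v ∉ L := (Finset.mem_filter.1 hv).2
    simp only [β, h4, if_false] at h3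
    have h5 : (A.filter fun z => G.Adj (φ v) z).card ≤ (L.filter fun z => G.Adj (φ v) z).card :=
      Finset.card_le_card (Finset.filter_subset_filter _ hAL)
    have h6 : i - I.card + ∑ u ∈ I, lam u ≤ a := by
      refine le_trans ?_ ha
      rw [← Finset.sum_sdiff (Finset.subset_univ I)]
      refine add_le_add ?_ ?_
      · have : (univ \ I).card = i - I.card := by
          rw [Finset.card_sdiff_of_subset (Finset.subset_univ I), Finset.card_univ]
        rw [← this, Finset.card_eq_sum_ones]
        refine Finset.sum_le_sum fun u _ => ?_
        split_ifs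
        · exact le_rfl
        · exact le_max_left _ _
      · refine Finset.sum_le_sum fun u hu => ?_
        rw [hIside u hu]
        simp
    omega
  · intro v hv
    have h1 : φ v ∈ L := by
      by_contra h
      exact hv (Finset.mem_filter.2 ⟨Finset.mem_univ _, h⟩)
    have h2 := mem_Lg.1 h1
    exact hk.trans (Nat.add_le_add_right h2 1)

/-- few internal vertices, for a tree `H` with pendant vertices. -/
theorem few {α : Type} [Fintype α] (H : SimpleGraph α) (hH : H.IsTree) (lam : α → ℕ) (k : ℕ)
    (hk1 : 1 ≤ k) (hk : Fintype.card α + ∑ v, lam v = k + 1)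
    (h : 4 * Fintype.card α + (univ.filter fun v => lam v = 0).card ≤ k + 8) :
    LKS k (leafed H lam) := by
  classical
  have : Nonempty α := hH.connected.nonempty
  have hi1 : 1 ≤ Fintype.card α := Fintype.card_pos
  obtain ⟨c⟩ := hH.colorable_two
  let side : α → Bool := fun v => decide (c v = 0)
  have hside : ∀ u v, H.Adj u v → side u ≠ side v := by
    intro u v huv he
    have h1 := c.valid huv
    have h2 : (c u = 0 ↔ c v = 0) := by simpa [side] using he
    apply h1
    have h3 : ∀ x : Fin 2, x = 0 ∨ x = 1 := by decide
    rcases h3 (c u) with hu | hu <;> rcases h3 (c v) with hv | hv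
    · rw [hu, hv]
    · exact absurd (h2.1 hu) (by rw [hv]; decide)
    · exact absurd (h2.2 hv) (by rw [hu]; decide)
    · rw [hu, hv]
  have hside' : ∀ u v, H.Adj u v → (!side u) ≠ (!side v) := by
    intro u v huv he
    exact hside u v huv (Bool.not_inj he)
  set a1 := ∑ v, (if side v then 1 else max 1 (lam v)) with ha1
  set a2 := ∑ v, (if (!side v) then 1 else max 1 (lam v)) with ha2
  have hsum : a1 + a2 = k + 1 + (univ.filter fun v => lam v = 0).card := by
    rw [ha1, ha2, ← Finset.sum_add_distrib, ← hk]
    have e1 : ∀ v : α, (if side v = true then 1 else max 1 (lam v)) +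
        (if (!side v) = true then 1 else max 1 (lam v)) =
        1 + lam v + (if lam v = 0 then 1 else 0) := by
      intro v
      have e2 : max 1 (lam v) = lam v + (if lam v = 0 then 1 else 0) := by
        split_ifs with h0
        · rw [h0]; rfl
        · have : 1 ≤ lam v := Nat.one_le_iff_ne_zero.2 h0
          simp [this]
      cases side v <;> simp [e2] <;> omega
    simp only [e1]
    rw [Finset.sum_add_distrib, Finset.sum_add_distrib, Finset.card_filter]
    simp
  by_cases hi : Fintype.card α = 1
  · -- a star
    have hsub : Subsingleton α := Fintype.card_le_one_iff_subsingleton.1 (by omega)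
    refine few_core H hH lam (fun _ => true) (fun u v huv => ?_) 1 ?_ k (by omega) (by omega)
    · rw [Subsingleton.elim u v] at huv
      exact (H.loopless.irrefl v huv).elim
    · simp [hi]
  · rcases le_total a1 a2 with h12 | h12
    · exact few_core H hH lam side hside a1 le_rfl k (by omega) (by omega)
    · exact few_core H hH lam (fun v => !side v) hside' a2 le_rfl k (by omega) (by omega)

end KS137
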