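/-
MP_137e81_co (Komlos-Sos tree conjecture), helper94: the theorem of Erdos and Gallai on paths.
-/
import Pool.Agent.H.MP_137e81_co.Transfer

set_option autoImplicit false

namespace KS137

open Finset

section
variable {V : Type} [DecidableEq V] (G : SimpleGraph V) [DecidableRel G.Adj]

/-- twice the number of edges inside `U`. -/
def e2 (U : Finset V) : ℤ := ∑ v ∈ U, ∑ w ∈ U, (if G.Adj v w then (1 : ℤ) else 0)

/-- a path inside `U`, as a list. -/
structure GoodList (U : Finset V) (l : List V) : Prop where
  nodup : l.Nodup
  chain : l.IsChain G.Adj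
  sub : ∀ x ∈ l, x ∈ U

variable {G}

lemma e2_erase {U : Finset V} {v : V} (hv : v ∈ U) :
    e2 G U = e2 G (U.erase v) + 2 * ((U.filter fun w => G.Adj v w).card : ℤ) := by
  have h1 : ∀ u, ∑ w ∈ U, (if G.Adj u w then (1 : ℤ) else 0) =
      ∑ w ∈ U.erase v, (if G.Adj u w then (1 : ℤ) else 0) + (if G.Adj u v then (1 : ℤ) else 0) := by
    intro u
    rw [Finset.sum_erase_add _ _ hv]
  have h2 : ((U.filter fun w => G.Adj v w).card : ℤ) =
      ∑ w ∈ U.erase v, (if G.Adj v w then (1 : ℤ) else 0) := by
    rw [card_filter_eq, h1 v]
    simp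
  unfold e2
  rw [← Finset.sum_erase_add _ _ hv]
  simp only [h1]
  rw [Finset.sum_add_distrib, h2]
  have h3 : ∑ u ∈ U.erase v, (if G.Adj u v then (1 : ℤ) else 0) =
      ∑ w ∈ U.erase v, (if G.Adj v w then (1 : ℤ) else 0) :=
    Finset.sum_congr rfl fun w _ => by simp only [G.adj_comm v w]
  rw [h3]
  simp
  ring

/-- no edges between `C` and the rest. -/
lemma e2_split {U C : Finset V} (hC : C ⊆ U) (h : ∀ v ∈ C, ∀ w ∈ U \ C, ¬ G.Adj v w) :
    e2 G U = e2 G C + e2 G (U \ C) := by
  unfold e2
  rw [← Finset.sum_sdiff hC, add_comm]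
  congr 1
  · refine Finset.sum_congr rfl fun v hv => ?_
    rw [← Finset.sum_sdiff hC]
    have : ∑ w ∈ U \ C, (if G.Adj v w then (1 : ℤ) else 0) = 0 :=
      Finset.sum_eq_zero fun w hw => if_neg (h v hv w hw)
    rw [this, zero_add]
  · refine Finset.sum_congr rfl fun v hv => ?_
    rw [← Finset.sum_sdiff hC]
    have : ∑ w ∈ C, (if G.Adj v w then (1 : ℤ) else 0) = 0 :=
      Finset.sum_eq_zero fun w hw => if_neg fun hh => h w hw v hv hh.symm
    rw [this, add_zero]

lemma e2_le (C : Finset V) : e2 G C ≤ (C.card : ℤ) * ((C.card : ℤ) - 1) := by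
  unfold e2
  have : ∀ v ∈ C, ∑ w ∈ C, (if G.Adj v w then (1 : ℤ) else 0) ≤ (C.card : ℤ) - 1 := by
    intro v hv
    rw [← card_filter_eq]
    have h1 : (C.filter fun w => G.Adj v w) ⊆ C.erase v := by
      intro w hw
      rw [Finset.mem_filter] at hw
      exact Finset.mem_erase.2 ⟨fun h => G.loopless.irrefl v (h ▸ hw.2), hw.1⟩
    have h2 := Finset.card_le_card h1
    rw [Finset.card_erase_of_mem hv] at h2
    have h3 : 0 < C.card := Finset.card_pos.2 ⟨v, hv⟩
    omega
  calc _ ≤ ∑ v ∈ C, ((C.card : ℤ) - 1) := Finset.sum_le_sum this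
    _ = _ := by rw [Finset.sum_const, nsmul_eq_mul]

/-- from a long path with many neighbours of the end vertices on it to a cycle. -/
lemma exists_cycle {U : Finset V} {l : List V} (hl : GoodList G U l) (hne : l ≠ [])
    (hx : ∀ w ∈ U, G.Adj (l.head hne) w → w ∈ l)
    (hy : ∀ w ∈ U, G.Adj (l.getLast hne) w → w ∈ l)
    (hdeg : l.length ≤ (U.filter fun w => G.Adj (l.head hne) w).card +
      (U.filter fun w => G.Adj (l.getLast hne) w).card) :
    ∃ c : List V, GoodList G U c ∧ c.length = l.length ∧ (∀ x, x ∈ c ↔ x ∈ l) ∧
      ∀ a ∈ c.getLast?, ∀ b ∈ c.head?, G.Adj a b := by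
  set t := l.length with ht
  have ht1 : 0 < t := List.length_pos_of_ne_nil hne
  set x := l.head hne with hxdef
  set y := l.getLast hne with hydef
  have hx0 : l.getD 0 x = x := by
    rw [List.getD_eq_getElem _ _ ht1, hxdef, List.head_eq_getElem]
  have hyt : l.getD (t - 1) x = y := by
    rw [List.getD_eq_getElem _ _ (by omega), hydef, List.getLast_eq_getElem]
  let A := (range (t - 1)).filter fun j => G.Adj x (l.getD (j + 1) x)
  let B := (range (t - 1)).filter fun j => G.Adj y (l.getD j x)
  have hA : (U.filter fun w => G.Adj x w) ⊆ A.image fun j => l.getD (j + 1) x := by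
    intro w hw
    rw [Finset.mem_filter] at hw
    obtain ⟨j, hj, hjw⟩ := List.mem_iff_getElem.1 (hx w hw.1 hw.2)
    have hj0 : j ≠ 0 := by
      rintro rfl
      rw [← hjw, ← List.head_eq_getElem hne] at hw
      exact G.loopless.irrefl _ hw.2
    rw [Finset.mem_image]
    have h2 : l.getD (j - 1 + 1) x = w := by
      rw [show j - 1 + 1 = j by omega, List.getD_eq_getElem _ _ hj, hjw]
    refine ⟨j - 1, ?_, h2⟩
    simp only [A, Finset.mem_filter, Finset.mem_range]
    rw [h2]
    exact ⟨by omega, hw.2⟩
  have hB : (U.filter fun w => G.Adj y w) ⊆ B.image fun j => l.getD j x := by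
    intro w hw
    rw [Finset.mem_filter] at hw
    obtain ⟨j, hj, hjw⟩ := List.mem_iff_getElem.1 (hy w hw.1 hw.2)
    have hj0 : j ≠ t - 1 := by
      rintro rfl
      rw [← hjw, ← List.getLast_eq_getElem hne] at hw
      exact G.loopless.irrefl _ hw.2
    rw [Finset.mem_image]
    have h2 : l.getD j x = w := by
      rw [List.getD_eq_getElem _ _ hj, hjw]
    refine ⟨j, ?_, h2⟩
    simp only [B, Finset.mem_filter, Finset.mem_range]
    rw [h2]
    exact ⟨by omega, hw.2⟩
  have hA2 := (Finset.card_le_card hA).trans Finset.card_image_le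
  have hB2 := (Finset.card_le_card hB).trans Finset.card_image_le
  have hAB : (range (t - 1)).card < A.card + B.card := by
    rw [Finset.card_range]
    omega
  obtain ⟨j, hj⟩ := Finset.inter_nonempty_of_card_lt_card_add_card
    (Finset.filter_subset _ _) (Finset.filter_subset _ _) hAB
  rw [Finset.mem_inter] at hj
  obtain ⟨hja, hjb⟩ := hj
  simp only [A, Finset.mem_filter, Finset.mem_range] at hja
  simp only [B, Finset.mem_filter, Finset.mem_range] at hjb
  obtain ⟨hjt, hj1⟩ := hja
  obtain ⟨-, hj2⟩ := hjb
  have hsplit : l.take (j + 1) ++ l.drop (j + 1) = l := List.take_append_drop _ _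
  have hch := hl.chain
  rw [← hsplit, List.isChain_append] at hch
  have hnd := hl.nodup
  rw [← hsplit] at hnd
  have hmem : ∀ z, z ∈ l.take (j + 1) ++ (l.drop (j + 1)).reverse ↔ z ∈ l := by
    intro z
    conv_rhs => rw [← hsplit]
    simp only [List.mem_append, List.mem_reverse]
  have hlast1 : ∀ a ∈ (l.take (j + 1)).getLast?, a = l.getD j x := by
    intro a ha
    rw [List.getLast?_take] at ha
    simp only [Nat.add_eq_zero_iff, one_ne_zero, and_false, if_false, Nat.add_sub_cancel] at ha
    rw [List.getElem?_eq_getElem (by omega)] at ha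
    simp only [Option.some_or, Option.mem_def, Option.some.injEq] at ha
    rw [List.getD_eq_getElem _ _ (by omega), ha]
  have hhead2 : ∀ a ∈ (l.drop (j + 1)).head?, a = l.getD (j + 1) x := by
    intro a ha
    rw [List.head?_drop, List.getElem?_eq_getElem (by omega)] at ha
    simp only [Option.mem_def, Option.some.injEq] at ha
    rw [List.getD_eq_getElem _ _ (by omega), ha]
  have hlast2 : ∀ a ∈ (l.drop (j + 1)).getLast?, a = y := by
    intro a ha
    rw [List.getLast?_drop, if_neg (by omega), List.getLast?_eq_getLast_of_ne_nil hne] at ha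
    simp only [Option.mem_def, Option.some.injEq] at ha
    rw [hydef, ha]
  have hhead1 : ∀ a ∈ (l.take (j + 1)).head?, a = x := by
    intro a ha
    rw [List.head?_take, if_neg (by omega), List.head?_eq_some_head hne] at ha
    simp only [Option.mem_def, Option.some.injEq] at ha
    rw [hxdef, ha]
  refine ⟨l.take (j + 1) ++ (l.drop (j + 1)).reverse, ⟨?_, ?_, ?_⟩, ?_, hmem, ?_⟩
  · rw [List.nodup_append] at hnd ⊢
    refine ⟨hnd.1, List.nodup_reverse.2 hnd.2.1, ?_⟩
    intro a ha b hb
    exact hnd.2.2 a ha b (List.mem_reverse.1 hb)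
  · rw [List.isChain_append]
    refine ⟨hch.1, ?_, ?_⟩
    · rw [List.isChain_reverse]
      exact hch.2.1.imp fun a b h => h.symm
    · intro a ha b hb
      rw [List.head?_reverse] at hb
      rw [hlast1 a ha, hlast2 b hb]
      exact hj2.symm
  · intro z hz
    exact hl.sub z ((hmem z).1 hz)
  · rw [List.length_append, List.length_reverse, ← List.length_append, hsplit]
  · intro a ha b hb
    have hd : (l.drop (j + 1)).reverse ≠ [] := by
      intro h
      have := congrArg List.length h
      simp at this
      omega
    have htk : l.take (j + 1) ≠ [] := by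
      intro h
      have := congrArg List.length h
      simp at this
      exact hne this
    rw [List.getLast?_append_of_ne_nil _ hd, List.getLast?_reverse] at ha
    rw [List.head?_append_of_ne_nil _ htk] at hb
    rw [hhead2 a ha, hhead1 b hb]
    exact hj1.symm

/-- a cycle with an edge going out gives a longer path. -/
lemma extend_cycle {U : Finset V} {c : List V} (hc : GoodList G U c)
    (hcl : ∀ a ∈ c.getLast?, ∀ b ∈ c.head?, G.Adj a b) {v w : V} (hv : v ∈ c) (hw : w ∈ U)
    (hwc : w ∉ c) (hvw : G.Adj v w) : ∃ c' : List V, GoodList G U c' ∧ c'.length = c.length + 1 := by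
  obtain ⟨c1, c2, rfl⟩ := List.append_of_mem hv
  have hch := hc.chain
  have hnd := hc.nodup
  rw [List.isChain_append] at hch
  have hmem : ∀ z, z ∈ (v :: c2) ++ c1 ↔ z ∈ c1 ++ v :: c2 := by
    intro z
    simp only [List.mem_append]
    tauto
  refine ⟨w :: ((v :: c2) ++ c1), ⟨?_, ?_, ?_⟩, ?_⟩
  · rw [List.nodup_cons]
    refine ⟨fun h => hwc ((hmem w).1 h), ?_⟩
    exact (List.perm_append_comm.nodup_iff).1 hnd
  · rw [List.isChain_cons]
    refine ⟨?_, ?_⟩
    · intro a ha
      simp only [List.cons_append, List.head?_cons, Option.mem_def, Option.some.injEq] at ha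
      rw [← ha]
      exact hvw.symm
    · rw [List.isChain_append]
      refine ⟨hch.2.1, hch.1, ?_⟩
      intro a ha b hb
      refine hcl a ?_ b ?_
      · rw [List.getLast?_append_of_ne_nil _ (List.cons_ne_nil _ _)]
        exact ha
      · have : c1 ≠ [] := by
          rintro rfl
          simp at hb
        rw [List.head?_append_of_ne_nil _ this]
        exact hb
  · intro z hz
    rcases List.mem_cons.1 hz with rfl | hz
    · exact hw
    · exact hc.sub z ((hmem z).1 hz)
  · simp only [List.length_cons, List.length_append]
    omega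

/-- THEOREM (Erdos-Gallai), in a finite set of vertices. -/
theorem erdos_gallai (i : ℕ) (hi : 1 ≤ i) : ∀ (n : ℕ) (U : Finset V), U.card = n →
    ((i : ℤ) - 2) * U.card < e2 G U → ∃ l : List V, GoodList G U l ∧ l.length = i := by
  intro n
  induction n using Nat.strong_induction_on with
  | _ n ih =>
    intro U hU hlt
    have hmono : ∀ {U' : Finset V} {l : List V}, U' ⊆ U → GoodList G U' l → GoodList G U l :=
      fun h1 h2 => ⟨h2.nodup, h2.chain, fun x hx => h1 (h2.sub x hx)⟩
    by_cases hdeg : ∃ v ∈ U, 2 * ((U.filter fun w => G.Adj v w).card : ℤ) ≤ (i : ℤ) - 2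
    · obtain ⟨v, hv, hd⟩ := hdeg
      have h1 := e2_erase (G := G) hv
      have h2 : (U.erase v).card = n - 1 := by rw [Finset.card_erase_of_mem hv, hU]
      have h3 : 0 < n := by rw [← hU]; exact Finset.card_pos.2 ⟨v, hv⟩
      have h4 : ((U.erase v).card : ℤ) = (U.card : ℤ) - 1 := by omega
      obtain ⟨l, hl, hll⟩ := ih (n - 1) (by omega) (U.erase v) h2 (by
        rw [h4]
        linarith)
      exact ⟨l, hmono (Finset.erase_subset _ _) hl, hll⟩
    · push Not at hdeg
      have hUne : U.Nonempty := by
        by_contra h
        rw [Finset.not_nonempty_iff_eq_empty] at h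
        subst h
        simp [e2] at hlt
      -- a longest path
      let P : ℕ → Prop := fun t => ∃ l : List V, GoodList G U l ∧ l.length = t
      classical
      have hPle : ∀ t, P t → t ≤ U.card := by
        rintro t ⟨l, hl, rfl⟩
        rw [← List.toFinset_card_of_nodup hl.nodup]
        exact Finset.card_le_card fun x hx => hl.sub x (List.mem_toFinset.1 hx)
      have hP1 : P 1 := by
        obtain ⟨v, hv⟩ := hUne
        refine ⟨[v], ⟨List.nodup_singleton v, List.isChain_singleton v, ?_⟩, rfl⟩
        intro x hx
        rw [List.mem_singleton] at hx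
        rw [hx]; exact hv
      obtain ⟨t, ht, htmax⟩ : ∃ t, P t ∧ ∀ s, P s → s ≤ t :=
        ⟨Nat.findGreatest P U.card, Nat.findGreatest_spec (hPle 1 hP1) hP1,
          fun s hs => Nat.le_findGreatest (hPle s hs) hs⟩
      have ht1 : 1 ≤ t := htmax 1 hP1
      obtain ⟨l, hl, hlt2⟩ := ht
      by_cases hti : i ≤ t
      · refine ⟨l.take i, ⟨?_, hl.chain.take i, ?_⟩, ?_⟩
        · exact hl.nodup.sublist (List.take_sublist _ _)
        · intro x hx
          exact hl.sub x (List.mem_of_mem_take hx)
        · rw [List.length_take]
          omega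
      · push Not at hti
        have hne : l ≠ [] := by
          rintro rfl
          simp at hlt2
          omega
        have hx : ∀ w ∈ U, G.Adj (l.head hne) w → w ∈ l := by
          intro w hw ha
          by_contra hwl
          have : P (t + 1) := by
            refine ⟨w :: l, ⟨List.nodup_cons.2 ⟨hwl, hl.nodup⟩, ?_, ?_⟩, by simp [hlt2]⟩
            · rw [List.isChain_cons]
              refine ⟨?_, hl.chain⟩
              intro a h
              rw [List.head?_eq_some_head hne] at h
              simp only [Option.mem_def, Option.some.injEq] at h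
              rw [← h]
              exact ha.symm
            · intro z hz
              rcases List.mem_cons.1 hz with rfl | hz
              · exact hw
              · exact hl.sub z hz
          have := htmax _ this
          omega
        have hy : ∀ w ∈ U, G.Adj (l.getLast hne) w → w ∈ l := by
          intro w hw ha
          by_contra hwl
          have : P (t + 1) := by
            refine ⟨l ++ [w], ⟨?_, ?_, ?_⟩, by simp [hlt2]⟩
            · rw [List.nodup_append]
              refine ⟨hl.nodup, List.nodup_singleton w, ?_⟩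
              intro a h b hb
              rw [List.mem_singleton] at hb
              rw [hb]
              rintro rfl
              exact hwl h
            · rw [List.isChain_append]
              refine ⟨hl.chain, List.isChain_singleton w, ?_⟩
              intro a h b hb
              rw [List.getLast?_eq_getLast_of_ne_nil hne] at h
              simp only [Option.mem_def, Option.some.injEq] at h
              simp only [List.head?_cons, Option.mem_def, Option.some.injEq] at hb
              rw [← h, ← hb]
              exact ha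
            · intro z hz
              rcases List.mem_append.1 hz with hz | hz
              · exact hl.sub z hz
              · rw [List.mem_singleton] at hz
                rw [hz]; exact hw
          have := htmax _ this
          omega
        have hd1 := hdeg _ (hl.sub _ (List.head_mem hne))
        have hd2 := hdeg _ (hl.sub _ (List.getLast_mem hne))
        obtain ⟨c, hc, hcl, hcm, hcc⟩ := exists_cycle hl hne hx hy (by omega)
        -- no edges going out of the cycle
        have hout : ∀ v ∈ l.toFinset, ∀ w ∈ U \ l.toFinset, ¬ G.Adj v w := by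
          intro v hv w hw ha
          rw [Finset.mem_sdiff, List.mem_toFinset] at hw
          rw [List.mem_toFinset] at hv
          obtain ⟨c', hc', hcl'⟩ := extend_cycle hc hcc ((hcm v).2 hv) hw.1
            (fun h => hw.2 ((hcm w).1 h)) ha
          have := htmax _ ⟨c', hc', rfl⟩
          omega
        have hCU : l.toFinset ⊆ U := fun x hx => hl.sub x (List.mem_toFinset.1 hx)
        have hCc : l.toFinset.card = t := by
          rw [List.toFinset_card_of_nodup hl.nodup, hlt2]
        have h1 := e2_split (G := G) hCU hout
        have h2 := e2_le (G := G) l.toFinset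
        rw [hCc] at h2
        have h3 : (U \ l.toFinset).card = n - t := by
          rw [Finset.card_sdiff_of_subset hCU, hU, hCc]
        have h4 : t ≤ n := by rw [← hU, ← hCc]; exact Finset.card_le_card hCU
        have h5 : ((U \ l.toFinset).card : ℤ) = (n : ℤ) - t := by omega
        obtain ⟨l', hl', hll'⟩ := ih (n - t) (by omega) (U \ l.toFinset) h3 (by
          rw [h5]
          rw [hU] at hlt
          have h6 : (t : ℤ) * ((t : ℤ) - 1) ≤ ((i : ℤ) - 2) * t := by
            have : (t : ℤ) + 1 ≤ i := by exact_mod_cast hti
            have : (0 : ℤ) ≤ t := by positivity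
            nlinarith
          linarith)
        exact ⟨l', hmono Finset.sdiff_subset hl', hll'⟩

end

/-- The path on `i` vertices has the Erdos-Sos property (Erdos-Gallai). -/
theorem es_path (i : ℕ) (hi : 1 ≤ i) : ES (SimpleGraph.pathGraph i) := by
  classical
  intro W _ F hF
  have h1 : 2 * (F.edgeSet.ncard : ℤ) = e2 F univ := by
    have h1 := F.sum_degrees_eq_twice_card_edges
    have h2 : F.edgeSet.ncard = F.edgeFinset.card := by
      rw [Set.ncard_eq_toFinset_card']
      rfl
    have h3 : 2 * (F.edgeSet.ncard : ℤ) = ∑ a : W, (F.degree a : ℤ) := by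
      rw [h2]; exact_mod_cast h1.symm
    rw [h3]
    unfold e2
    refine Finset.sum_congr rfl fun a _ => ?_
    rw [← card_filter_eq, ← SimpleGraph.card_neighborFinset_eq_degree]
    congr 2
    ext b
    simp
  rw [h1, Fintype.card_fin] at hF
  obtain ⟨l, hl, hll⟩ := erdos_gallai (G := F) i hi _ univ rfl (by
    rw [Finset.card_univ]
    exact hF)
  subst hll
  refine ⟨⟨⟨fun j => l.get j, ?_⟩, ?_⟩⟩
  · intro a b hab
    rw [SimpleGraph.pathGraph_adj] at hab
    have key : ∀ a b : Fin l.length, a.val + 1 = b.val → F.Adj (l.get a) (l.get b) := by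
      intro a b h
      have h2 := List.isChain_iff_getElem.1 hl.chain a.val (by omega)
      have h3 : l.get b = l[a.val + 1]'(by omega) := by
        simp only [List.get_eq_getElem]
        congr 1
        exact h.symm
      rw [h3]
      exact h2
    rcases hab with h | h
    · exact key a b h
    · exact (key b a h).symm
  · exact List.nodup_iff_injective_get.1 hl.nodup

end KS137
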