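/-
MP_137e81_co (Komlos-Sos tree conjecture), helper62: the Erdos-Sos property of the trees with a vertex
adjacent to many leaves.
-/
import Pool.Agent.H.MP_137e81_co.Path

set_option autoImplicit false

namespace KS137

open Finset

/-- A tree with at least two vertices has a leaf different from a given vertex. -/
theorem exists_leaf_ne {α : Type} [Fintype α] [DecidableEq α] (H : SimpleGraph α)
    [DecidableRel H.Adj] (hH : H.IsTree) (h2 : 2 ≤ Fintype.card α) (h : α) :
    ∃ v, v ≠ h ∧ H.degree v = 1 := by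
  by_contra hcon
  push Not at hcon
  have hnt : Nontrivial α := Fintype.one_lt_card_iff_nontrivial.1 (by omega)
  have hpos : ∀ v, 1 ≤ H.degree v := fun v =>
    hH.connected.preconnected.degree_pos_of_nontrivial v
  have h1 := H.sum_degrees_eq_twice_card_edges
  have h3 := hH.card_edgeFinset
  rw [← Finset.sum_erase_add _ _ (Finset.mem_univ h)] at h1
  have h4 : (univ.erase h).card • 2 ≤ ∑ v ∈ univ.erase h, H.degree v := by
    refine Finset.card_nsmul_le_sum _ _ _ fun v hv => ?_
    have h5 := hpos v
    have h6 := hcon v (Finset.ne_of_mem_erase hv)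
    omega
  rw [Finset.card_erase_of_mem (Finset.mem_univ h), Finset.card_univ, smul_eq_mul] at h4
  have h5 := hpos h
  omega

/-- Greedy embedding of a tree with a prescribed image of one vertex. -/
theorem greedy_root {V : Type} [DecidableEq V] (G : SimpleGraph V) [DecidableRel G.Adj]
    (U : Finset V) (m : ℕ) (hU : ∀ w ∈ U, m ≤ (U.filter fun z => G.Adj w z).card) :
    ∀ (n : ℕ) (α : Type) [Fintype α] (H : SimpleGraph α) (h : α) (w0 : V),
      Fintype.card α = n → n ≤ m + 1 → H.IsTree → w0 ∈ U →
      ∃ φ : α → V, Function.Injective φ ∧ (∀ v, φ v ∈ U) ∧ φ h = w0 ∧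
        ∀ u v, H.Adj u v → G.Adj (φ u) (φ v) := by
  classical
  intro n
  induction n with
  | zero =>
    intro α _ H h w0 hc _ _ _
    have : 0 < Fintype.card α := Fintype.card_pos_iff.2 ⟨h⟩
    omega
  | succ n ih =>
    intro α _ H h w0 hc hm hH hw0
    by_cases hn : n = 0
    · subst hn
      have hsub : Subsingleton α := Fintype.card_le_one_iff_subsingleton.1 (by omega)
      refine ⟨fun _ => w0, fun x y _ => Subsingleton.elim x y, fun _ => hw0, rfl,
        fun u v huv => ?_⟩
      rw [Subsingleton.elim u v] at huv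
      exact (H.loopless.irrefl v huv).elim
    · obtain ⟨v, hvh, hv⟩ := exists_leaf_ne H hH (by omega) h
      obtain ⟨u, hu⟩ := (H.degree_eq_one_iff_existsUnique_adj).1 hv
      have hconn := hH.connected.induce_compl_singleton_of_degree_eq_one hv
      have hH' : (H.induce ({v}ᶜ : Set α)).IsTree := ⟨hconn, hH.isAcyclic.induce _⟩
      have hcard : Fintype.card (({v}ᶜ : Set α) : Type) = n := by
        have := Fintype.card_compl_set ({v} : Set α)
        rw [Set.card_singleton, hc] at this
        rw [this]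
        omega
      obtain ⟨φ', hφ', hφm, hφh, hφa⟩ := ih (({v}ᶜ : Set α) : Type) (H.induce ({v}ᶜ : Set α))
        ⟨h, fun e => hvh (e : h = v).symm⟩ w0 hcard (by omega) hH' hw0
      have huv : u ≠ v := fun h => H.loopless.irrefl v (h ▸ hu.1)
      let u' : (({v}ᶜ : Set α) : Type) := ⟨u, huv⟩
      have hcount : ((univ.image φ').erase (φ' u')).card <
          (U.filter fun z => G.Adj (φ' u') z).card := by
        have h1 := hU (φ' u') (hφm u')
        rw [Finset.card_erase_of_mem (Finset.mem_image_of_mem _ (Finset.mem_univ _)),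
          Finset.card_image_of_injective _ hφ', Finset.card_univ, hcard]
        omega
      obtain ⟨w, hw, hwn⟩ := Finset.exists_mem_notMem_of_card_lt_card hcount
      rw [Finset.mem_filter] at hw
      have hwne : ∀ x, φ' x ≠ w := by
        intro x hx
        apply hwn
        rw [Finset.mem_erase]
        refine ⟨?_, hx ▸ Finset.mem_image_of_mem _ (Finset.mem_univ _)⟩
        rintro rfl
        exact G.loopless.irrefl _ hw.2
      let φ : α → V := fun x => if h : x = v then w else φ' ⟨x, h⟩
      have hφv : φ v = w := by simp [φ]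
      have hφx : ∀ (x : α) (h : x ≠ v), φ x = φ' ⟨x, h⟩ := by
        intro x h
        simp only [φ, h, dif_neg, not_false_eq_true]
      refine ⟨φ, ?_, ?_, ?_, ?_⟩
      · intro x y hxy
        by_cases hx : x = v
        · by_cases hy : y = v
          · rw [hx, hy]
          · rw [hx, hφv, hφx y hy] at hxy
            exact (hwne _ hxy.symm).elim
        · by_cases hy : y = v
          · rw [hy, hφv, hφx x hx] at hxy
            exact (hwne _ hxy).elim
          · rw [hφx x hx, hφx y hy] at hxy
            exact congrArg Subtype.val (hφ' hxy)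
      · intro x
        by_cases hx : x = v
        · rw [hx, hφv]; exact hw.1
        · rw [hφx x hx]
          exact hφm ⟨x, hx⟩
      · rw [hφx h (fun e => hvh e.symm)]
        exact hφh
      · intro x y hxy
        by_cases hx : x = v
        · have hy : y = u := hu.2 y (hx ▸ hxy)
          rw [hx, hy, hφv, hφx u huv]
          exact hw.2.symm
        · by_cases hy : y = v
          · have hx' : x = u := hu.2 x (hy ▸ hxy.symm)
            rw [hy, hx', hφv, hφx u huv]
            exact hw.2
          · rw [hφx x hx, hφx y hy]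
            exact hφa ⟨x, hx⟩ ⟨y, hy⟩ hxy

/-- A subgraph of large minimum degree and larger average degree. -/
theorem exists_core {V : Type} [DecidableEq V] (G : SimpleGraph V) [DecidableRel G.Adj] (m : ℤ) :
    ∀ (n : ℕ) (U : Finset V), U.card = n → m * U.card < e2 G U →
      ∃ U' : Finset V, m * U'.card < e2 G U' ∧
        ∀ v ∈ U', m < 2 * ((U'.filter fun w => G.Adj v w).card : ℤ) := by
  intro n
  induction n with
  | zero =>
    intro U hU h
    rw [Finset.card_eq_zero] at hU
    subst hU
    simp [e2] at h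
  | succ n ih =>
    intro U hU h
    by_cases hd : ∀ v ∈ U, m < 2 * ((U.filter fun w => G.Adj v w).card : ℤ)
    · exact ⟨U, h, hd⟩
    · push Not at hd
      obtain ⟨v, hv, hle⟩ := hd
      have h1 := e2_erase (G := G) hv
      have h2 : ((U.erase v).card : ℤ) = U.card - 1 := by
        rw [Finset.card_erase_of_mem hv, hU]
        push_cast
        omega
      refine ih (U.erase v) (by rw [Finset.card_erase_of_mem hv, hU]; rfl) ?_
      rw [h2]
      have h3 : m * ((U.card : ℤ) - 1) = m * U.card - m := by ring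
      rw [h3]
      omega

/-- The Erdos-Sos property of a tree with a vertex `h` adjacent to leaves which make up at least half
of the other vertices. -/
theorem es_hub {α : Type} [Fintype α] [DecidableEq α] (H : SimpleGraph α) [DecidableRel H.Adj]
    (hH : H.IsTree) (h : α)
    (hleaf : Fintype.card α ≤ 2 * (univ.filter fun u => H.Adj h u ∧ H.degree u = 1).card + 1) :
    ES H := by
  classical
  intro W _ F hF
  set i := Fintype.card α with hi
  have hi1 : 1 ≤ i := Fintype.card_pos_iff.2 ⟨h⟩
  set Lf : Finset α := univ.filter fun u => H.Adj h u ∧ H.degree u = 1 with hLf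
  have hmem : ∀ u, u ∈ Lf ↔ H.Adj h u ∧ H.degree u = 1 := by
    intro u
    simp [hLf]
  have h1 : 2 * (F.edgeSet.ncard : ℤ) = e2 F univ := by
    have h1 := F.sum_degrees_eq_twice_card_edges
    have h2 : F.edgeSet.ncard = F.edgeFinset.card := by
      rw [Set.ncard_eq_toFinset_card']
      rfl
    have h3 : 2 * (F.edgeSet.ncard : ℤ) = ∑ a : W, (F.degree a : ℤ) := by
      rw [h2]; exact_mod_cast h1.symm
    rw [h3]
    unfold e2
    refine Finset.sum_congr rfl fun a _ => ?_
    rw [← card_filter_eq, ← SimpleGraph.card_neighborFinset_eq_degree]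
    congr 2
    ext b
    simp
  obtain ⟨U, hU1, hU2⟩ := exists_core F ((i : ℤ) - 2) _ univ rfl (by
    rw [Finset.card_univ, ← h1]
    exact hF)
  -- a vertex of degree at least `i - 1`
  have hbig : ∃ w0 ∈ U, i ≤ (U.filter fun z => F.Adj w0 z).card + 1 := by
    by_contra hcon
    push Not at hcon
    have h2 : e2 F U ≤ ((i : ℤ) - 2) * U.card := by
      unfold e2
      have h3 : ∀ v ∈ U, ∑ w ∈ U, (if F.Adj v w then (1 : ℤ) else 0) ≤ (i : ℤ) - 2 := by
        intro v hv
        rw [← card_filter_eq]
        have h4 := hcon v hv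
        omega
      calc _ ≤ ∑ v ∈ U, ((i : ℤ) - 2) := Finset.sum_le_sum h3
        _ = _ := by rw [Finset.sum_const, nsmul_eq_mul, mul_comm]
    omega
  obtain ⟨w0, hw0, hdeg⟩ := hbig
  by_cases hi2 : i = 1
  · have hsub : Subsingleton α := Fintype.card_le_one_iff_subsingleton.1 (by omega)
    refine ⟨⟨⟨fun _ => w0, fun {a b} hab => ?_⟩, fun a b _ => Subsingleton.elim a b⟩⟩
    exact (hab.ne (Subsingleton.elim a b)).elim
  -- the hub is not one of its leaves
  have hhL : h ∉ Lf := fun hh => H.loopless.irrefl h ((hmem h).1 hh).1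
  -- the tree without these leaves
  by_cases hR : ∃ r, r ∉ Lf ∧ r ≠ h
  · have hnbr : ∀ u ∈ Lf, ∀ x, H.Adj u x → x = h := by
      intro u hu x hx
      obtain ⟨hu1, hu2⟩ := (hmem u).1 hu
      obtain ⟨y, hy1, hy2⟩ := (H.degree_eq_one_iff_existsUnique_adj).1 hu2
      exact (hy2 x hx).trans (hy2 h hu1.symm).symm
    have hconn : (H.induce {v | v ∉ Lf}).Connected := by
      have hne : Nonempty ({v | v ∉ Lf} : Set α) := ⟨⟨h, hhL⟩⟩
      refine ⟨?_⟩
      rintro ⟨a, ha⟩ ⟨b, hb⟩
      obtain ⟨p, hp⟩ := (hH.connected.preconnected a b).exists_isPath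
      refine ⟨p.induce _ ?_⟩
      intro x hx
      show x ∉ Lf
      intro hxL
      by_cases hxa : x = a
      · exact ha (hxa ▸ hxL)
      by_cases hxb : x = b
      · exact hb (hxb ▸ hxL)
      have h1' : ¬ (p.takeUntil x hx).Nil := fun h' => hxa h'.eq.symm
      have h2' : ¬ (p.dropUntil x hx).Nil := fun h' => hxb h'.eq
      have h3 := SimpleGraph.Walk.adj_penultimate h1'
      have h4 := SimpleGraph.Walk.adj_snd h2'
      have e1 := hnbr x hxL _ h3.symm
      have e2' := hnbr x hxL _ h4
      have h5 := hp.support_nodup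
      rw [← p.take_spec hx, SimpleGraph.Walk.support_append, List.nodup_append] at h5
      have h6 : (p.takeUntil x hx).penultimate ∈ (p.takeUntil x hx).support :=
        SimpleGraph.Walk.getVert_mem_support _ _
      have h7 : (p.dropUntil x hx).snd ∈ (p.dropUntil x hx).support.tail :=
        SimpleGraph.Walk.snd_mem_tail_support h2'
      exact h5.2.2 _ h6 _ h7 (e1.trans e2'.symm)
    have hT : (H.induce {v | v ∉ Lf}).IsTree := ⟨hconn, hH.isAcyclic.induce _⟩
    have hcardR : Fintype.card ({v | v ∉ Lf} : Set α) + Lf.card = i := by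
      have h3 : Fintype.card ({v | v ∉ Lf} : Set α) = (univ.filter fun v => v ∉ Lf).card := by
        rw [← Set.toFinset_card]
        congr 1
        ext v
        simp
      rw [h3, hi, ← Finset.card_univ, ← Finset.card_filter_add_card_filter_not (s := univ)
        (fun v => v ∉ Lf)]
      congr 1
      congr 1
      ext v
      simp
    have hmin : ∀ w ∈ U, i - Lf.card - 1 ≤ (U.filter fun z => F.Adj w z).card := by
      intro w hw
      have h3 := hU2 w hw
      omega
    obtain ⟨φ, hφ1, hφ2, hφ3, hφ4⟩ := greedy_root F U (i - Lf.card - 1) hmin _ _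
      (H.induce {v | v ∉ Lf}) ⟨h, hhL⟩ w0 rfl (by omega) hT hw0
    -- the leaves at the hub
    have hfree : Lf.card ≤ ((U.filter fun z => F.Adj w0 z) \ (univ.image φ)).card := by
      have e1 : (U.filter fun z => F.Adj w0 z) \ (univ.image φ) =
          (U.filter fun z => F.Adj w0 z) \ ((univ.image φ).erase w0) := by
        ext z
        simp only [mem_sdiff, mem_filter, mem_erase]
        constructor
        · rintro ⟨h3, h4⟩
          exact ⟨h3, fun h5 => h4 h5.2⟩
        · rintro ⟨h3, h4⟩
          refine ⟨h3, fun h5 => h4 ⟨?_, h5⟩⟩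
          rintro rfl
          exact F.loopless.irrefl _ h3.2
      have e2' : ((univ.image φ).erase w0).card + 1 =
          Fintype.card ({v | v ∉ Lf} : Set α) := by
        rw [Finset.card_erase_of_mem (hφ3 ▸ Finset.mem_image_of_mem _ (Finset.mem_univ _)),
          Finset.card_image_of_injective _ hφ1, Finset.card_univ]
        have : 0 < Fintype.card ({v | v ∉ Lf} : Set α) := Fintype.card_pos_iff.2 ⟨⟨h, hhL⟩⟩
        omega
      rw [e1]
      have e3 := Finset.le_card_sdiff ((univ.image φ).erase w0) (U.filter fun z => F.Adj w0 z)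
      omega
    obtain ⟨f, hf1, hf2⟩ : ∃ f : Lf → W, Function.Injective f ∧
        ∀ u, f u ∈ ((U.filter fun z => F.Adj w0 z) \ (univ.image φ)) := by
      obtain ⟨f, hf1, hf2⟩ := exists_sdr (Z := Lf)
        (fun _ => ((U.filter fun z => F.Adj w0 z) \ (univ.image φ))) (fun _ => by
          rw [Fintype.card_coe]
          exact hfree)
      exact ⟨f, hf1, hf2⟩
    let Ψ : α → W := fun v => if hv : v ∈ Lf then f ⟨v, hv⟩ else φ ⟨v, hv⟩
    have hΨ1 : ∀ (v : α) (hv : v ∈ Lf), Ψ v = f ⟨v, hv⟩ := fun v hv => dif_pos hv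
    have hΨ2 : ∀ (v : α) (hv : v ∉ Lf), Ψ v = φ ⟨v, hv⟩ := fun v hv => dif_neg hv
    have hfφ : ∀ u v, f u ≠ φ v := by
      intro u v he
      have h3 := (mem_sdiff.1 (hf2 u)).2
      exact h3 (he ▸ Finset.mem_image_of_mem _ (Finset.mem_univ _))
    refine ⟨⟨⟨Ψ, fun {a b} hab => ?_⟩, fun a b hab => ?_⟩⟩
    · by_cases ha : a ∈ Lf
      · have hb : b = h := hnbr a ha b hab
        subst hb
        rw [hΨ1 a ha, hΨ2 b hhL]
        have h3 := (mem_filter.1 (mem_sdiff.1 (hf2 ⟨a, ha⟩)).1).2
        rw [hφ3]
        exact h3.symm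
      · by_cases hb : b ∈ Lf
        · have ha' : a = h := hnbr b hb a hab.symm
          subst ha'
          rw [hΨ1 b hb, hΨ2 a hhL]
          have h3 := (mem_filter.1 (mem_sdiff.1 (hf2 ⟨b, hb⟩)).1).2
          rw [hφ3]
          exact h3
        · rw [hΨ2 a ha, hΨ2 b hb]
          exact hφ4 ⟨a, ha⟩ ⟨b, hb⟩ hab
    · have hab' : Ψ a = Ψ b := hab
      by_cases ha : a ∈ Lf
      · by_cases hb : b ∈ Lf
        · rw [hΨ1 a ha, hΨ1 b hb] at hab'
          exact congrArg Subtype.val (hf1 hab')
        · rw [hΨ1 a ha, hΨ2 b hb] at hab'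
          exact absurd hab' (hfφ _ _)
      · by_cases hb : b ∈ Lf
        · rw [hΨ2 a ha, hΨ1 b hb] at hab'
          exact absurd hab'.symm (hfφ _ _)
        · rw [hΨ2 a ha, hΨ2 b hb] at hab'
          exact congrArg Subtype.val (hφ1 hab')
  · -- a star
    push Not at hR
    have hstar : ∀ v, v ≠ h → v ∈ Lf := fun v hv => by
      by_contra hv'
      exact hv (hR v hv')
    have hcL : Lf.card + 1 = i := by
      have h3 : Lf = univ.erase h := by
        ext v
        rw [mem_erase]
        exact ⟨fun hv => ⟨fun e => hhL (e ▸ hv), mem_univ v⟩, fun hv => hstar v hv.1⟩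
      rw [h3, Finset.card_erase_of_mem (mem_univ h), Finset.card_univ]
      omega
    obtain ⟨f, hf1, hf2⟩ : ∃ f : Lf → W, Function.Injective f ∧
        ∀ u, f u ∈ (U.filter fun z => F.Adj w0 z) := by
      obtain ⟨f, hf1, hf2⟩ := exists_sdr (Z := Lf)
        (fun _ => (U.filter fun z => F.Adj w0 z)) (fun _ => by
          rw [Fintype.card_coe]
          omega)
      exact ⟨f, hf1, hf2⟩
    let Ψ : α → W := fun v => if hv : v ∈ Lf then f ⟨v, hv⟩ else w0
    have hΨ1 : ∀ (v : α) (hv : v ∈ Lf), Ψ v = f ⟨v, hv⟩ := fun v hv => dif_pos hv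
    have hΨ2 : ∀ (v : α) (hv : v ∉ Lf), Ψ v = w0 := fun v hv => dif_neg hv
    have hne : ∀ u, f u ≠ w0 := by
      intro u he
      have h3 := (mem_filter.1 (hf2 u)).2
      rw [he] at h3
      exact F.loopless.irrefl _ h3
    have hnbr : ∀ u ∈ Lf, ∀ x, H.Adj u x → x = h := by
      intro u hu x hx
      obtain ⟨hu1, hu2⟩ := (hmem u).1 hu
      obtain ⟨y, hy1, hy2⟩ := (H.degree_eq_one_iff_existsUnique_adj).1 hu2
      exact (hy2 x hx).trans (hy2 h hu1.symm).symm
    refine ⟨⟨⟨Ψ, fun {a b} hab => ?_⟩, fun a b hab => ?_⟩⟩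
    · by_cases ha : a ∈ Lf
      · have hb : b = h := hnbr a ha b hab
        subst hb
        rw [hΨ1 a ha, hΨ2 b hhL]
        exact ((mem_filter.1 (hf2 ⟨a, ha⟩)).2).symm
      · have ha' : a = h := hR a ha
        subst ha'
        have hb : b ∈ Lf := hstar b (fun e => H.loopless.irrefl a (by rw [e] at hab; exact hab))
        rw [hΨ1 b hb, hΨ2 a hhL]
        exact (mem_filter.1 (hf2 ⟨b, hb⟩)).2
    · have hab' : Ψ a = Ψ b := hab
      by_cases ha : a ∈ Lf
      · by_cases hb : b ∈ Lf
        · rw [hΨ1 a ha, hΨ1 b hb] at hab'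
          exact congrArg Subtype.val (hf1 hab')
        · rw [hΨ1 a ha, hΨ2 b hb] at hab'
          exact absurd hab' (hne _)
      · by_cases hb : b ∈ Lf
        · rw [hΨ2 a ha, hΨ1 b hb] at hab'
          exact absurd hab'.symm (hne _)
        · rw [hR a ha, hR b hb]

end KS137
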