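/-
MP_137e81_co (Komlos-Sos tree conjecture), helper94: the Erdos-Sos property of all caterpillars
(Perles), by the count of bad pairs in a cyclic order.
-/
import Pool.Agent.H.MP_137e81_co.Transfer

set_option autoImplicit false

namespace KS137

open Finset

section perles
variable {W : Type} (G : SimpleGraph W) (pos : W → ℕ)

/-- `z` lies on the open arc from `x` to `y` (in the direction `s`). -/
def arc (s : Bool) (x y z : W) : Prop :=
  if s then
    (pos x < pos z ∧ pos z < pos y) ∨ (pos z < pos y ∧ pos y < pos x) ∨ (pos y < pos x ∧ pos x < pos z)
  else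
    (pos y < pos z ∧ pos z < pos x) ∨ (pos z < pos x ∧ pos x < pos y) ∨ (pos x < pos y ∧ pos y < pos z)

/-- the pair `(p, q)` (pivot, last vertex) admits the remaining steps `w`. -/
def Good : List Bool → Bool → W → W → Prop
  | [], _, _, _ => True
  | false :: w, s, p, q => ∃ r, G.Adj p r ∧ arc pos s q p r ∧ Good w s p r
  | true :: w, s, p, q => ∃ r, G.Adj q r ∧ arc pos s q p r ∧ Good w (!s) q r

variable {G pos}

lemma arc_total (hpos : Function.Injective pos) (s : Bool) {x1 x2 y : W} (h1 : x1 ≠ y)
    (h2 : x2 ≠ y) (h : x1 ≠ x2) : arc pos s x1 y x2 ∨ arc pos s x2 y x1 := by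
  have h1' := hpos.ne h1
  have h2' := hpos.ne h2
  have h' := hpos.ne h
  cases s <;> simp only [arc, if_true, Bool.false_eq_true, if_false] <;> omega

lemma arc_total' (hpos : Function.Injective pos) (s : Bool) {y1 y2 x : W} (h1 : y1 ≠ x)
    (h2 : y2 ≠ x) (h : y1 ≠ y2) : arc pos s x y1 y2 ∨ arc pos s x y2 y1 := by
  have h1' := hpos.ne h1
  have h2' := hpos.ne h2
  have h' := hpos.ne h
  cases s <;> simp only [arc, if_true, Bool.false_eq_true, if_false] <;> omega

lemma arc_flip (s : Bool) (x y z : W) : arc pos (!s) x y z ↔ arc pos s y x z := by
  cases s <;> simp only [arc, if_true, Bool.false_eq_true, if_false, Bool.not_false, Bool.not_true]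

lemma arc_sub_left (s : Bool) {x y r z : W} (h : arc pos s x y r) (hz : arc pos s r y z) :
    arc pos s x y z := by
  cases s <;> simp only [arc, if_true, Bool.false_eq_true, if_false] at h hz ⊢ <;> omega

lemma arc_sub_right (s : Bool) {x y r z : W} (h : arc pos s x y r) (hz : arc pos s x r z) :
    arc pos s x y z := by
  cases s <;> simp only [arc, if_true, Bool.false_eq_true, if_false] at h hz ⊢ <;> omega

lemma arc_irrefl_left (s : Bool) (x y : W) : ¬ arc pos s x y x := by
  cases s <;> simp only [arc, if_true, Bool.false_eq_true, if_false] <;> omega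

lemma arc_irrefl_right (s : Bool) (x y : W) : ¬ arc pos s x y y := by
  cases s <;> simp only [arc, if_true, Bool.false_eq_true, if_false] <;> omega

/-- the number of bad pairs. -/
lemma bad_card [Fintype W] [DecidableEq W] (hpos : Function.Injective pos) (w : List Bool) :
    ∀ s : Bool, {x : W × W | G.Adj x.1 x.2 ∧ ¬ Good G pos w s x.1 x.2}.ncard ≤
      w.length * Fintype.card W := by
  classical
  induction w with
  | nil =>
    intro s
    simp [Good]
  | cons b w ih =>
    intro s
    cases b with
    | false =>
      set B : Set (W × W) := {x | G.Adj x.1 x.2 ∧ ¬ Good G pos w s x.1 x.2} with hB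
      set B' : Set (W × W) := {x | G.Adj x.1 x.2 ∧ ¬ Good G pos (false :: w) s x.1 x.2} with hB'
      have hsub : B' ⊆ B ∪ (B' \ B) := by
        intro x hx
        by_cases h : x ∈ B
        · exact Or.inl h
        · exact Or.inr ⟨hx, h⟩
      have hinj : Set.InjOn (fun x : W × W => x.1) (B' \ B) := by
        rintro ⟨p, q1⟩ ⟨⟨ha1, hb1⟩, hc1⟩ ⟨p', q2⟩ ⟨⟨ha2, hb2⟩, hc2⟩ hpp
        have hpp' : p = p' := hpp
        subst hpp'
        by_contra hne
        have hq : q1 ≠ q2 := fun h => hne (by rw [h])
        have hg1 : Good G pos w s p q1 := by
          by_contra h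
          exact hc1 ⟨ha1, h⟩
        have hg2 : Good G pos w s p q2 := by
          by_contra h
          exact hc2 ⟨ha2, h⟩
        rcases arc_total hpos s (y := p) ha1.ne' ha2.ne' hq with h | h
        · exact hb1 ⟨q2, ha2, h, hg2⟩
        · exact hb2 ⟨q1, ha1, h, hg1⟩
      have h1 : (B' \ B).ncard ≤ Fintype.card W := by
        rw [← Set.InjOn.ncard_image hinj, ← Nat.card_eq_fintype_card]
        exact Set.ncard_le_card _
      calc B'.ncard ≤ (B ∪ (B' \ B)).ncard := Set.ncard_le_ncard hsub (Set.toFinite _)
        _ ≤ B.ncard + (B' \ B).ncard := Set.ncard_union_le _ _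
        _ ≤ w.length * Fintype.card W + Fintype.card W := add_le_add (ih s) h1
        _ = (false :: w).length * Fintype.card W := by simp [List.length_cons]; ring
    | true =>
      set B : Set (W × W) := {x | G.Adj x.1 x.2 ∧ ¬ Good G pos w (!s) x.1 x.2} with hB
      set B' : Set (W × W) := {x | G.Adj x.1 x.2 ∧ ¬ Good G pos (true :: w) s x.1 x.2} with hB'
      have hsub : B' ⊆ (Prod.swap '' B) ∪ (B' \ (Prod.swap '' B)) := by
        intro x hx
        by_cases h : x ∈ Prod.swap '' B
        · exact Or.inl h
        · exact Or.inr ⟨hx, h⟩
      have hinj : Set.InjOn (fun x : W × W => x.2) (B' \ (Prod.swap '' B)) := by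
        rintro ⟨p1, q⟩ ⟨⟨ha1, hb1⟩, hc1⟩ ⟨p2, q'⟩ ⟨⟨ha2, hb2⟩, hc2⟩ hqq
        have hqq' : q = q' := hqq
        subst hqq'
        by_contra hne
        have hp : p1 ≠ p2 := fun h => hne (by rw [h])
        have hg1 : Good G pos w (!s) q p1 := by
          by_contra h
          exact hc1 ⟨(q, p1), ⟨ha1.symm, h⟩, rfl⟩
        have hg2 : Good G pos w (!s) q p2 := by
          by_contra h
          exact hc2 ⟨(q, p2), ⟨ha2.symm, h⟩, rfl⟩
        rcases arc_total' hpos s (x := q) ha1.ne ha2.ne hp with h | h
        · exact hb1 ⟨p2, ha2.symm, h, hg2⟩
        · exact hb2 ⟨p1, ha1.symm, h, hg1⟩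
      have h1 : (B' \ (Prod.swap '' B)).ncard ≤ Fintype.card W := by
        rw [← Set.InjOn.ncard_image hinj, ← Nat.card_eq_fintype_card]
        exact Set.ncard_le_card _
      have h2 : (Prod.swap '' B).ncard = B.ncard :=
        Set.ncard_image_of_injective _ Prod.swap_injective
      calc B'.ncard ≤ ((Prod.swap '' B) ∪ (B' \ (Prod.swap '' B))).ncard :=
            Set.ncard_le_ncard hsub (Set.toFinite _)
        _ ≤ (Prod.swap '' B).ncard + (B' \ (Prod.swap '' B)).ncard := Set.ncard_union_le _ _
        _ ≤ w.length * Fintype.card W + Fintype.card W := add_le_add (h2 ▸ ih (!s)) h1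
        _ = (true :: w).length * Fintype.card W := by simp [List.length_cons]; ring

/-- the word of the steps: the pivot moves to the last vertex `m` when `Sp m` holds. -/
def word (Sp : ℕ → Bool) : ℕ → ℕ → List Bool
  | _, 0 => []
  | m, N + 1 => Sp m :: word Sp (m + 1) N

lemma word_length (Sp : ℕ → Bool) (N : ℕ) : ∀ m, (word Sp m N).length = N := by
  induction N with
  | zero => intro m; rfl
  | succ N ih => intro m; simp [word, ih]

/-- from a good pair to the whole zigzag caterpillar. -/
lemma extend (Sp : ℕ → Bool) (N : ℕ) : ∀ (m : ℕ) (s : Bool) (t0 : ℕ) (f : ℕ → W), t0 < m →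
    Sp t0 = true → (∀ u, t0 < u → u < m → Sp u = false) →
    (∀ a b, a ≤ m → b ≤ m → f a = f b → a = b) →
    (∀ a, a ≤ m → ¬ arc pos s (f m) (f t0) (f a)) →
    (∀ t b, t ≤ b → b < m → Sp t = true → (∀ u, t < u → u ≤ b → Sp u = false) →
      G.Adj (f t) (f (b + 1))) →
    Good G pos (word Sp m N) s (f t0) (f m) →
    ∃ g : ℕ → W, (∀ a b, a ≤ m + N → b ≤ m + N → g a = g b → a = b) ∧
      (∀ t b, t ≤ b → b < m + N → Sp t = true → (∀ u, t < u → u ≤ b → Sp u = false) →
        G.Adj (g t) (g (b + 1))) := by
  induction N with
  | zero =>
    intro m s t0 f _ _ _ hinj _ hadj _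
    exact ⟨f, hinj, hadj⟩
  | succ N ih =>
    intro m s t0 f ht0 hSp0 hbetween hinj harc hadj hgood
    have hgood' : Good G pos (Sp m :: word Sp (m + 1) N) s (f t0) (f m) := hgood
    -- the common part
    have common : ∀ r, arc pos s (f m) (f t0) r →
        (∀ a b, a ≤ m + 1 → b ≤ m + 1 → Function.update f (m + 1) r a =
          Function.update f (m + 1) r b → a = b) := by
      intro r hr a b ha hb hab
      have hne : ∀ c, c ≤ m → f c ≠ r := fun c hc he => harc c hc (he ▸ hr)
      by_cases h1 : a = m + 1
      · by_cases h2 : b = m + 1
        · rw [h1, h2]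
        · subst h1
          rw [Function.update_self, Function.update_of_ne h2] at hab
          exact absurd hab.symm (hne b (by omega))
      · by_cases h2 : b = m + 1
        · subst h2
          rw [Function.update_self, Function.update_of_ne h1] at hab
          exact absurd hab (hne a (by omega))
        · rw [Function.update_of_ne h1, Function.update_of_ne h2] at hab
          exact hinj a b (by omega) (by omega) hab
    have hm0 : t0 ≠ m + 1 := by omega
    have hmm : m ≠ m + 1 := by omega
    rcases hb : Sp m with _ | _
    · rw [hb] at hgood'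
      obtain ⟨r, hr1, hr2, hr3⟩ := hgood'
      obtain ⟨g, hg1, hg2⟩ := ih (m + 1) s t0 (Function.update f (m + 1) r) (by omega) hSp0
        (by
          intro u hu1 hu2
          rcases Nat.lt_or_ge u m with h | h
          · exact hbetween u hu1 h
          · have : u = m := by omega
            rw [this, hb])
        (common r hr2)
        (by
          intro a ha
          rw [Function.update_self, Function.update_of_ne hm0]
          by_cases h1 : a = m + 1
          · subst h1
            rw [Function.update_self]
            exact arc_irrefl_left s _ _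
          · rw [Function.update_of_ne h1]
            intro h
            exact harc a (by omega) (arc_sub_left s hr2 h))
        (by
          intro t b htb hbm hSpt hno
          rcases Nat.lt_or_ge b m with h | h
          · rw [Function.update_of_ne (by omega), Function.update_of_ne (by omega)]
            exact hadj t b htb h hSpt hno
          · have hbm' : b = m := by omega
            subst hbm'
            have htt : t = t0 := by
              rcases lt_trichotomy t t0 with h1 | h1 | h1
              · have := hno t0 h1 (by omega)
                rw [hSp0] at this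
                exact absurd this (by decide)
              · exact h1
              · rcases Nat.lt_or_ge t b with h2 | h2
                · have := hbetween t h1 h2
                  rw [hSpt] at this
                  exact absurd this (by decide)
                · have : t = b := by omega
                  rw [this, hb] at hSpt
                  exact absurd hSpt (by decide)
            subst htt
            rw [Function.update_self, Function.update_of_ne hm0]
            exact hr1)
        (by
          rw [Function.update_self, Function.update_of_ne hm0]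
          exact hr3)
      refine ⟨g, ?_, ?_⟩
      · intro a b ha hb
        exact hg1 a b (by omega) (by omega)
      · intro t b htb hbm
        exact hg2 t b htb (by omega)
    · rw [hb] at hgood'
      obtain ⟨r, hr1, hr2, hr3⟩ := hgood'
      obtain ⟨g, hg1, hg2⟩ := ih (m + 1) (!s) m (Function.update f (m + 1) r) (by omega) hb
        (by
          intro u hu1 hu2
          omega)
        (common r hr2)
        (by
          intro a ha
          rw [Function.update_self, Function.update_of_ne hmm]
          by_cases h1 : a = m + 1
          · subst h1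
            rw [Function.update_self]
            exact arc_irrefl_left _ _ _
          · rw [Function.update_of_ne h1, arc_flip]
            intro h
            exact harc a (by omega) (arc_sub_right s hr2 h))
        (by
          intro t b htb hbm hSpt hno
          rcases Nat.lt_or_ge b m with h | h
          · rw [Function.update_of_ne (by omega), Function.update_of_ne (by omega)]
            exact hadj t b htb h hSpt hno
          · have hbm' : b = m := by omega
            subst hbm'
            have htt : t = b := by
              rcases Nat.lt_or_ge t b with h2 | h2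
              · have := hno b h2 le_rfl
                rw [hb] at this
                exact absurd this (by decide)
              · omega
            subst htt
            rw [Function.update_self, Function.update_of_ne hmm]
            exact hr1)
        (by
          rw [Function.update_self, Function.update_of_ne hmm]
          exact hr3)
      refine ⟨g, ?_, ?_⟩
      · intro a b ha hb
        exact hg1 a b (by omega) (by omega)
      · intro t b htb hbm
        exact hg2 t b htb (by omega)

/-- PERLES: the zigzag caterpillar with `i` vertices in every graph with more than `(i - 2) n / 2`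
edges. -/
theorem perles_seq [Fintype W] (F : SimpleGraph W) (Sp : ℕ → Bool) (h0 : Sp 0 = true) (N : ℕ)
    (hF : (N : ℤ) * Fintype.card W < 2 * (F.edgeSet.ncard : ℤ)) :
    ∃ g : ℕ → W, (∀ a b, a ≤ N + 1 → b ≤ N + 1 → g a = g b → a = b) ∧
      (∀ t b, t ≤ b → b < N + 1 → Sp t = true → (∀ u, t < u → u ≤ b → Sp u = false) →
        F.Adj (g t) (g (b + 1))) := by
  classical
  let e := Fintype.equivFin W
  let pos : W → ℕ := fun w => (e w : ℕ)
  have hpos : Function.Injective pos := fun a b h => e.injective (Fin.ext h)
  -- the number of ordered adjacent pairs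
  have hpairs : ({x : W × W | F.Adj x.1 x.2}.ncard : ℤ) = 2 * (F.edgeSet.ncard : ℤ) := by
    have h2 : F.edgeSet.ncard = F.edgeFinset.card := by
      rw [Set.ncard_eq_toFinset_card']
      rfl
    have h4 : {x : W × W | F.Adj x.1 x.2} = (fun d : F.Dart => d.toProd) '' Set.univ := by
      ext x
      constructor
      · intro h
        exact ⟨⟨x, h⟩, trivial, rfl⟩
      · rintro ⟨d, _, rfl⟩
        exact d.adj
    have hinj : Function.Injective (fun d : F.Dart => d.toProd) := fun a b h =>
      SimpleGraph.Dart.toProd_injective h
    rw [h4, Set.ncard_image_of_injective _ hinj, Set.ncard_univ, Nat.card_eq_fintype_card,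
      F.dart_card_eq_twice_card_edges, h2]
    push_cast
    rfl
  have hbad := bad_card (G := F) hpos (word Sp 1 N) true
  rw [word_length] at hbad
  obtain ⟨⟨p, q⟩, hpq, hgood⟩ : ∃ x : W × W, F.Adj x.1 x.2 ∧
      Good F pos (word Sp 1 N) true x.1 x.2 := by
    by_contra hcon
    push Not at hcon
    have : {x : W × W | F.Adj x.1 x.2} = {x : W × W | F.Adj x.1 x.2 ∧
        ¬ Good F pos (word Sp 1 N) true x.1 x.2} := by
      ext x
      simp only [Set.mem_ofPred_eq]
      exact ⟨fun h => ⟨h, hcon x h⟩, fun h => h.1⟩
    rw [← this] at hbad
    have hbad' : ({x : W × W | F.Adj x.1 x.2}.ncard : ℤ) ≤ N * Fintype.card W := by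
      exact_mod_cast hbad
    rw [hpairs] at hbad'
    omega
  have hpq' : F.Adj p q := hpq
  obtain ⟨g, hg1, hg2⟩ := extend (G := F) (pos := pos) Sp N 1 true 0 (fun m => if m = 0 then p else q)
    (by omega) h0 (by intro u h1 h2; omega)
    (by
      intro a b ha hb hab
      have ha' : a = 0 ∨ a = 1 := by omega
      have hb' : b = 0 ∨ b = 1 := by omega
      rcases ha' with rfl | rfl <;> rcases hb' with rfl | rfl
      · rfl
      · simp at hab; exact absurd hab hpq'.ne
      · simp at hab; exact absurd hab.symm hpq'.ne
      · rfl)
    (by
      intro a ha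
      have ha' : a = 0 ∨ a = 1 := by omega
      rcases ha' with rfl | rfl
      · simpa using arc_irrefl_right (pos := pos) true q p
      · simpa using arc_irrefl_left (pos := pos) true q p)
    (by
      intro t b htb hb1 _ _
      have : b = 0 := by omega
      have : t = 0 := by omega
      subst this
      have : b = 0 := by omega
      subst this
      simpa using hpq')
    (by simpa using hgood)
  refine ⟨g, fun a b ha hb => hg1 a b (by omega) (by omega), fun t b htb hb => hg2 t b htb (by omega)⟩

end perles

end KS137
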