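/-
MP_137e81_co (Komlos-Sos tree conjecture), helper94: the Erdos-Sos property of all caterpillars
(Perles) in the form used here.
-/
import Pool.Agent.H.MP_137e81_co.Perles

set_option autoImplicit false

namespace KS137

open Finset

/-- the position of the `j`-th spine vertex in the zigzag order. -/
def st (mu : ℕ → ℕ) (j : ℕ) : ℕ := ∑ t ∈ range j, (mu t + 1)

lemma st_succ (mu : ℕ → ℕ) (j : ℕ) : st mu (j + 1) = st mu j + mu j + 1 := by
  simp [st, Finset.sum_range_succ]
  ring

lemma st_mono (mu : ℕ → ℕ) : StrictMono (st mu) :=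
  strictMono_nat_of_lt_succ fun j => by rw [st_succ]; omega

/-- PERLES: every caterpillar has the Erdos-Sos property. -/
theorem es_caterpillar (s : ℕ) (hs : 1 ≤ s) (mu : Fin s → ℕ) :
    ES (leafed (SimpleGraph.pathGraph s) mu) := by
  classical
  intro W _ F hF
  let mu' : ℕ → ℕ := fun t => if h : t < s then mu ⟨t, h⟩ else 0
  have hmu' : ∀ j : Fin s, mu' j = mu j := fun j => by simp [mu', j.2]
  let Sp : ℕ → Bool := fun m => decide (∃ j, st mu' j = m)
  have hst0 : st mu' 0 = 0 := rfl
  have hcard : Fintype.card (Fin s ⊕ (Σ j : Fin s, Fin (mu j))) = st mu' s := by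
    simp only [Fintype.card_sum, Fintype.card_fin, Fintype.card_sigma]
    rw [st, Finset.sum_add_distrib, Finset.sum_const, card_range, smul_eq_mul, mul_one,
      Finset.sum_range]
    simp only [hmu']
    ring
  have hs1 : 1 ≤ st mu' s := by
    have := st_mono mu' (show 0 < s by omega)
    omega
  -- the sequence
  obtain ⟨g, hg1, hg2⟩ : ∃ g : ℕ → W, (∀ a b, a < st mu' s → b < st mu' s → g a = g b → a = b) ∧
      (∀ t b, t ≤ b → b + 1 < st mu' s → Sp t = true → (∀ u, t < u → u ≤ b → Sp u = false) →
        F.Adj (g t) (g (b + 1))) := by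
    rw [hcard] at hF
    rcases Nat.lt_or_ge (st mu' s) 2 with h | h
    · have h1 : st mu' s = 1 := by omega
      rw [h1] at hF
      have hne : Nonempty W := by
        by_contra hcon
        rw [not_nonempty_iff] at hcon
        rw [Fintype.card_eq_zero] at hF
        have : F.edgeSet.ncard = 0 := by
          rw [Set.ncard_eq_zero]
          ext e
          simp only [Set.mem_empty_iff_false, iff_false]
          intro he
          induction e with
          | _ x y => exact hcon.false x
        rw [this] at hF
        simp at hF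
      refine ⟨fun _ => Classical.arbitrary W, fun a b ha hb _ => by omega, fun t b _ hb => by omega⟩
    · obtain ⟨N, hN⟩ : ∃ N, st mu' s = N + 2 := ⟨st mu' s - 2, by omega⟩
      rw [hN] at hF
      obtain ⟨g, h1, h2⟩ := perles_seq F Sp (by simp [Sp]; exact ⟨0, hst0⟩) N (by
        push_cast at hF
        have : ((N : ℤ) + 2 - 2) = N := by ring
        rw [this] at hF
        exact hF)
      refine ⟨g, fun a b ha hb => h1 a b (by omega) (by omega), fun t b htb hb =>
        h2 t b htb (by omega)⟩
  -- the embedding
  let idx : Fin s ⊕ (Σ j : Fin s, Fin (mu j)) → ℕ :=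
    Sum.elim (fun j => st mu' j) (fun p => st mu' p.1 + p.2 + 1)
  have hlt : ∀ x, idx x < st mu' s := by
    rintro (j | ⟨j, r⟩)
    · exact st_mono mu' j.2
    · have h1 : st mu' (j + 1) ≤ st mu' s := (st_mono mu').monotone (by have := j.2; omega)
      rw [st_succ, hmu'] at h1
      have h2 := r.2
      show st mu' j + r + 1 < st mu' s
      omega
  have hinj : Function.Injective idx := by
    have key : ∀ j j' : ℕ, j < j' → st mu' j + mu' j + 1 ≤ st mu' j' := by
      intro j j' hjj
      rw [← st_succ]
      exact (st_mono mu').monotone hjj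
    rintro (j | ⟨j, r⟩) (j' | ⟨j', r'⟩) h
    · exact congrArg Sum.inl (Fin.ext ((st_mono mu').injective h))
    · exfalso
      have h' : st mu' j = st mu' j' + r' + 1 := h
      have h2 := r'.2
      rcases lt_trichotomy (j : ℕ) j' with h1 | h1 | h1
      · have := key _ _ h1; omega
      · rw [h1] at h'; omega
      · have := key _ _ h1; rw [hmu'] at this; omega
    · exfalso
      have h' : st mu' j + r + 1 = st mu' j' := h
      have h2 := r.2
      rcases lt_trichotomy (j : ℕ) j' with h1 | h1 | h1
      · have := key _ _ h1; rw [hmu'] at this; omega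
      · rw [h1] at h'; omega
      · have := key _ _ h1; omega
    · have h' : st mu' j + r + 1 = st mu' j' + r' + 1 := h
      have h2 := r.2
      have h3 := r'.2
      have hjj : j = j' := by
        rcases lt_trichotomy (j : ℕ) j' with h1 | h1 | h1
        · have := key _ _ h1; rw [hmu'] at this; omega
        · exact Fin.ext h1
        · have := key _ _ h1; rw [hmu'] at this; omega
      subst hjj
      have : r = r' := Fin.ext (by omega)
      rw [this]
  have hno : ∀ (j u : ℕ), st mu' j < u → u < st mu' (j + 1) → Sp u = false := by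
    intro j u h1 h2
    simp only [Sp, decide_eq_false_iff_not, not_exists]
    rintro j' rfl
    have h3 := (st_mono mu').lt_iff_lt.1 h1
    have h4 := (st_mono mu').lt_iff_lt.1 h2
    omega
  have hSp : ∀ j : ℕ, Sp (st mu' j) = true := fun j => by simp only [Sp, decide_eq_true_eq]; exact ⟨j, rfl⟩
  have hleaf : ∀ (j : Fin s) (r : Fin (mu j)), F.Adj (g (st mu' j)) (g (st mu' j + r + 1)) := by
    intro j r
    have h1 := hlt (Sum.inr ⟨j, r⟩)
    have h1' : st mu' j + r + 1 < st mu' s := h1
    refine hg2 (st mu' j) (st mu' j + r) (by omega) h1' (hSp j) ?_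
    intro u hu1 hu2
    refine hno j u hu1 ?_
    rw [st_succ, hmu']
    have := r.2
    omega
  have hspine : ∀ (j : ℕ), j + 1 < s → F.Adj (g (st mu' j)) (g (st mu' (j + 1))) := by
    intro j hj
    have h1 : st mu' (j + 1) < st mu' s := st_mono mu' hj
    rw [st_succ] at h1 ⊢
    refine hg2 (st mu' j) (st mu' j + mu' j) (by omega) h1 (hSp j) ?_
    intro u hu1 hu2
    refine hno j u hu1 ?_
    rw [st_succ]
    omega
  refine ⟨⟨⟨fun x => g (idx x), ?_⟩, ?_⟩⟩
  · rintro (u | p) (v | q) h
    · have h' : (SimpleGraph.pathGraph s).Adj u v := h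
      rw [SimpleGraph.pathGraph_adj] at h'
      rcases h' with h1 | h1
      · have := hspine u (by have := v.2; omega)
        rw [h1] at this
        exact this
      · have := hspine v (by have := u.2; omega)
        rw [h1] at this
        exact this.symm
    · have h' : u = q.1 := h
      subst h'
      exact hleaf q.1 q.2
    · have h' : p.1 = v := h
      subst h'
      exact (hleaf p.1 p.2).symm
    · exact h.elim
  · intro x y hxy
    exact hinj (hg1 _ _ (hlt x) (hlt y) hxy)

end KS137
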