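/-
MP_137e81_co (Komlos-Sos tree conjecture), helper94: the transfer theorem, relative to one host
graph.
-/
import Pool.Agent.H.MP_137e81_co.Transfer

set_option autoImplicit false

namespace KS137

open Finset

/-- the auxiliary graph as a subgraph of the host. -/
def Fsub {V : Type} [Fintype V] [DecidableEq V] (G : SimpleGraph V) [DecidableRel G.Adj]
    (k a : ℕ) : G.Subgraph where
  verts := {v | v ∈ Lg G k ∪ Sg G k a}
  Adj u v := (G.Adj u v ∧ (u ∈ Lg G k ∨ v ∈ Lg G k)) ∧ u ∈ Lg G k ∪ Sg G k a ∧ v ∈ Lg G k ∪ Sg G k a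
  adj_sub h := h.1.1
  edge_vert h := h.2.1
  symm := ⟨fun _ _ h => ⟨⟨h.1.1.symm, h.1.2.symm⟩, h.2.2, h.2.1⟩⟩

/-- TRANSFER THEOREM, relative to the host graph `G`. -/
theorem transfer_rel {α V : Type} [Fintype α] [Nonempty α] [Fintype V] [Nonempty V]
    (H : SimpleGraph α) (lam : α → ℕ) (G : SimpleGraph V)
    (hES : ∀ F : G.Subgraph, ((Fintype.card α : ℤ) - 2) * F.verts.ncard <
      2 * (F.edgeSet.ncard : ℤ) → H.IsContained F.coe)
    (hcond : ∀ J : Finset α, (∀ u ∉ J, ∀ v ∉ J, ¬ H.Adj u v) → J.card ≤ ∑ v ∈ J, lam v + 1)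
    (hG : Fintype.card V ≤
      2 * {v : V | Fintype.card α - 1 + ∑ v, lam v ≤ (G.neighborSet v).ncard}.ncard) :
    (leafed H lam).IsContained G := by
  classical
  set i := Fintype.card α with hi
  set l := ∑ v, lam v with hl
  have hi1 : 1 ≤ i := Fintype.card_pos
  set k := i - 1 + l with hk
  rw [card_Lg] at hG
  have hil : i ≤ l + 1 := by
    have := hcond univ (by simp)
    simpa [hi, hl] using this
  have hd := Fg_dense (G := G) (k := k) (a := l + 1) ((i : ℤ) - 2) (by push_cast; omega)
    (by push_cast; omega) (by omega) hG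
  have hcoe : (Fsub G k (l + 1)).coe = Fg G k (l + 1) := by
    ext u v
    constructor
    · intro h
      have h' : (Fsub G k (l + 1)).Adj u v := h
      exact h'.1
    · intro h
      have h' : G.Adj u v ∧ ((u : V) ∈ Lg G k ∨ (v : V) ∈ Lg G k) := h
      exact ⟨h', u.2, v.2⟩
  have hverts : (Fsub G k (l + 1)).verts.ncard = (Lg G k ∪ Sg G k (l + 1)).card := by
    rw [← Set.ncard_coe_finset]
    rfl
  rw [Fintype.card_coe] at hd
  have hedge : (Fsub G k (l + 1)).edgeSet.ncard = (Fg G k (l + 1)).edgeSet.ncard := by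
    rw [← SimpleGraph.Subgraph.image_coe_edgeSet_coe, hcoe,
      Set.ncard_image_of_injective _ (Sym2.map.injective Subtype.val_injective)]
    rfl
  obtain ⟨f⟩ := hES (Fsub G k (l + 1)) (by rw [hverts, hedge]; exact hd)
  let f' : α → {v // v ∈ Lg G k ∪ Sg G k (l + 1)} := fun v => ⟨(f v : V), (f v).2⟩
  have hf' : Function.Injective f' := by
    intro u v h
    refine f.injective (Subtype.ext ?_)
    exact congrArg Subtype.val h
  have hadjF : ∀ u v, H.Adj u v → (Fg G k (l + 1)).Adj (f' u) (f' v) := by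
    intro u v h
    have h2 : (Fsub G k (l + 1)).Adj (f u) (f v) := f.toHom.map_adj h
    exact h2.1
  refine attach_Fg H lam f' hf' hadjF (by omega) ?_
  set I : Finset α := univ.filter fun v => (f' v : V) ∉ Lg G k with hI
  have hc := hcond (univ \ I) (by
    intro u hu v hv h
    simp only [hI, mem_sdiff, mem_univ, true_and, mem_filter, not_not] at hu hv
    rcases (hadjF u v h).2 with h1 | h1
    · exact hu h1
    · exact hv h1)
  have hc2 : (univ \ I).card = i - I.card := by
    rw [Finset.card_sdiff_of_subset (Finset.subset_univ I), Finset.card_univ]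
  have hc3 : ∑ v ∈ univ \ I, lam v + ∑ v ∈ I, lam v = l := Finset.sum_sdiff (Finset.subset_univ I)
  rw [hc2] at hc
  omega

end KS137
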