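/-
MP_137e81_co (Komlos-Sos tree conjecture), helper94: every tree on at least three vertices is its
inner tree with pendant vertices.
-/
import Pool.Agent.H.MP_137e81_co.Few

set_option autoImplicit false

namespace KS137

open Finset

section
variable {β : Type} [Fintype β] [DecidableEq β] {T : SimpleGraph β} [DecidableRel T.Adj]

lemma two_le_degree_of_adj {x y z : β} (h1 : T.Adj x y) (h2 : T.Adj x z) (h : y ≠ z) :
    2 ≤ T.degree x := by
  rw [← SimpleGraph.card_neighborFinset_eq_degree]
  have : ({y, z} : Finset β) ⊆ T.neighborFinset x := by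
    intro w hw
    rw [Finset.mem_insert, Finset.mem_singleton] at hw
    rcases hw with rfl | rfl
    · simpa using h1
    · simpa using h2
  have h3 := Finset.card_le_card this
  rwa [Finset.card_pair h] at h3

/-- interior vertices of a path have degree at least two. -/
lemma two_le_degree_of_mem_path {u v x : β} (p : T.Walk u v) (hp : p.IsPath) (hx : x ∈ p.support)
    (hu : x ≠ u) (hv : x ≠ v) : 2 ≤ T.degree x := by
  have h1 : ¬ (p.takeUntil x hx).Nil := by
    intro h
    exact hu h.eq.symm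
  have h2 : ¬ (p.dropUntil x hx).Nil := by
    intro h
    exact hv h.eq
  have h3 := SimpleGraph.Walk.adj_penultimate h1
  have h4 := SimpleGraph.Walk.adj_snd h2
  refine two_le_degree_of_adj h3.symm h4 ?_
  intro he
  have h5 := hp.support_nodup
  rw [← p.take_spec hx, SimpleGraph.Walk.support_append, List.nodup_append] at h5
  have h6 : (p.takeUntil x hx).penultimate ∈ (p.takeUntil x hx).support :=
    SimpleGraph.Walk.getVert_mem_support _ _
  have h7 : (p.dropUntil x hx).snd ∈ (p.dropUntil x hx).support.tail :=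
    SimpleGraph.Walk.snd_mem_tail_support h2
  exact h5.2.2 _ h6 _ h7 he

lemma inner_isTree (hT : T.IsTree) (h3 : 3 ≤ Fintype.card β) :
    (T.induce {v | 2 ≤ T.degree v}).IsTree := by
  have hne : ∃ v, 2 ≤ T.degree v := by
    by_contra h
    push Not at h
    have h1 := T.sum_degrees_eq_twice_card_edges
    have h2 := hT.card_edgeFinset
    have h4 : ∑ v, T.degree v ≤ ∑ _v : β, 1 := Finset.sum_le_sum fun v _ => by
      have := h v; omega
    simp only [Finset.sum_const, Finset.card_univ, smul_eq_mul, mul_one] at h4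
    omega
  refine ⟨?_, hT.isAcyclic.induce _⟩
  have : Nonempty ({v | 2 ≤ T.degree v} : Set β) := ⟨⟨hne.choose, hne.choose_spec⟩⟩
  refine ⟨?_⟩
  rintro ⟨u, hu⟩ ⟨v, hv⟩
  obtain ⟨p, hp⟩ := (hT.connected.preconnected u v).exists_isPath
  refine ⟨p.induce _ ?_⟩
  intro x hx
  by_cases hxu : x = u
  · rw [hxu]; exact hu
  · by_cases hxv : x = v
    · rw [hxv]; exact hv
    · exact two_le_degree_of_mem_path p hp hx hxu hxv

/-- two leaves are not adjacent. -/
lemma not_adj_leaves (hT : T.IsTree) (h3 : 3 ≤ Fintype.card β) {u w : β} (hu : T.degree u = 1)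
    (hw : T.degree w = 1) : ¬ T.Adj u w := by
  intro h
  obtain ⟨u', hu1, hu2⟩ := (T.degree_eq_one_iff_existsUnique_adj).1 hu
  obtain ⟨w', hw1, hw2⟩ := (T.degree_eq_one_iff_existsUnique_adj).1 hw
  have eu : ∀ z, T.Adj u z → z = w := fun z hz => (hu2 z hz).trans (hu2 w h).symm
  have ew : ∀ z, T.Adj w z → z = u := fun z hz => (hw2 z hz).trans (hw2 u h.symm).symm
  obtain ⟨z, hz⟩ : ∃ z, z ∉ ({u, w} : Finset β) := by
    by_contra hcon
    push Not at hcon
    have h1 : Fintype.card β ≤ ({u, w} : Finset β).card := by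
      rw [← Finset.card_univ]
      exact Finset.card_le_card fun z _ => hcon z
    have h2 : ({u, w} : Finset β).card ≤ 2 := Finset.card_le_two
    omega
  have key : ∀ (a b : β) (p : T.Walk a b), (a = u ∨ a = w) → (b = u ∨ b = w) := by
    intro a b p
    induction p with
    | nil => exact fun h => h
    | cons hadj _ ih =>
      intro ha
      apply ih
      rcases ha with rfl | rfl
      · right; exact eu _ hadj
      · left; exact ew _ hadj
  obtain ⟨p⟩ := hT.connected.preconnected u z
  have := key u z p (Or.inl rfl)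
  apply hz
  simp only [Finset.mem_insert, Finset.mem_singleton]
  exact this

/-- number of leaves adjacent to `v`. -/
def nleaf (T : SimpleGraph β) [DecidableRel T.Adj] (v : β) : ℕ :=
  Fintype.card {u // T.Adj v u ∧ T.degree u = 1}

lemma tree_form (hT : T.IsTree) (h3 : 3 ≤ Fintype.card β) :
    Fintype.card {v // 2 ≤ T.degree v} + ∑ v : {v // 2 ≤ T.degree v}, nleaf T v =
      Fintype.card β ∧
    T.IsContained (leafed (T.induce {v | 2 ≤ T.degree v}) fun v => nleaf T v) := by
  classical
  have hpos : ∀ v, 1 ≤ T.degree v := by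
    intro v
    have : Nontrivial β := Fintype.one_lt_card_iff_nontrivial.1 (by omega)
    exact hT.connected.preconnected.degree_pos_of_nontrivial v
  -- the parent of a leaf
  have hpar : ∀ u, ¬ 2 ≤ T.degree u → ∃ v, T.Adj u v ∧ 2 ≤ T.degree v ∧ ∀ w, T.Adj u w → w = v := by
    intro u hu
    have hu1 : T.degree u = 1 := by have := hpos u; omega
    obtain ⟨v, hv1, hv2⟩ := (T.degree_eq_one_iff_existsUnique_adj).1 hu1
    refine ⟨v, hv1, ?_, hv2⟩
    by_contra hv
    have hv3 : T.degree v = 1 := by have := hpos v; omega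
    exact not_adj_leaves hT h3 hu1 hv3 hv1
  choose! par hpar1 hpar2 hpar3 using hpar
  have hleaf : ∀ u, ¬ 2 ≤ T.degree u → T.degree u = 1 := by
    intro u hu
    have := hpos u
    omega
  let e : ∀ v : β, {u // T.Adj v u ∧ T.degree u = 1} ≃ Fin (nleaf T v) := fun v =>
    Fintype.equivFin _
  let Φ : β → {v // 2 ≤ T.degree v} ⊕ (Σ v : {v // 2 ≤ T.degree v}, Fin (nleaf T v)) := fun u =>
    if h : 2 ≤ T.degree u then Sum.inl ⟨u, h⟩
    else Sum.inr ⟨⟨par u, hpar2 u h⟩, e (par u) ⟨u, (hpar1 u h).symm, hleaf u h⟩⟩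
  have hΦ1 : ∀ (u : β) (h : 2 ≤ T.degree u), Φ u = Sum.inl ⟨u, h⟩ := by
    intro u h; simp only [Φ, h, dif_pos]
  have hΦ2 : ∀ (u : β) (h : ¬ 2 ≤ T.degree u), Φ u =
      Sum.inr ⟨⟨par u, hpar2 u h⟩, e (par u) ⟨u, (hpar1 u h).symm, hleaf u h⟩⟩ := by
    intro u h; simp only [Φ, h, dif_neg, not_false_eq_true]
  have key : ∀ (v v' : {v // 2 ≤ T.degree v}) (x : {u // T.Adj v u ∧ T.degree u = 1})
      (x' : {u // T.Adj v' u ∧ T.degree u = 1}),
      (⟨v, e v x⟩ : Σ v : {v // 2 ≤ T.degree v}, Fin (nleaf T v)) = ⟨v', e v' x'⟩ →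
      (x : β) = x' := by
    rintro v v' x x' h
    have h1 : v = v' := congrArg Sigma.fst h
    subst h1
    have h2 : e v x = e v x' := by simpa using h
    rw [(e v).injective h2]
  have hinj : Function.Injective Φ := by
    intro u w huw
    by_cases hu : 2 ≤ T.degree u
    · by_cases hw : 2 ≤ T.degree w
      · rw [hΦ1 u hu, hΦ1 w hw] at huw
        simpa using huw
      · rw [hΦ1 u hu, hΦ2 w hw] at huw
        exact absurd huw (by simp)
    · by_cases hw : 2 ≤ T.degree w
      · rw [hΦ2 u hu, hΦ1 w hw] at huw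
        exact absurd huw (by simp)
      · rw [hΦ2 u hu, hΦ2 w hw] at huw
        exact key ⟨par u, hpar2 u hu⟩ ⟨par w, hpar2 w hw⟩ ⟨u, (hpar1 u hu).symm, hleaf u hu⟩
          ⟨w, (hpar1 w hw).symm, hleaf w hw⟩ (Sum.inr_injective huw)
  have hsurj : Function.Surjective Φ := by
    rintro (⟨v, hv⟩ | ⟨⟨v, hv⟩, j⟩)
    · exact ⟨v, hΦ1 v hv⟩
    · obtain ⟨⟨u, hu1, hu2⟩, hj⟩ := (e v).surjective j
      have hnot : ¬ 2 ≤ T.degree u := by omega
      refine ⟨u, ?_⟩
      rw [hΦ2 u hnot]
      have hv' : par u = v := (hpar3 u hnot v hu1.symm).symm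
      subst hv'
      rw [← hj]
  refine ⟨?_, ⟨⟨⟨Φ, ?_⟩, hinj⟩⟩⟩
  · have h1 := Fintype.card_of_bijective ⟨hinj, hsurj⟩
    rw [Fintype.card_sum, Fintype.card_sigma] at h1
    simpa using h1.symm
  · intro u w huw
    by_cases hu : 2 ≤ T.degree u
    · by_cases hw : 2 ≤ T.degree w
      · rw [hΦ1 u hu, hΦ1 w hw]
        exact huw
      · rw [hΦ1 u hu, hΦ2 w hw]
        have : u = par w := hpar3 w hw u huw.symm
        exact Subtype.ext this
    · by_cases hw : 2 ≤ T.degree w
      · rw [hΦ2 u hu, hΦ1 w hw]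
        have : w = par u := hpar3 u hu w huw
        exact Subtype.ext this.symm
      · exact absurd huw (not_adj_leaves hT h3 (hleaf u hu) (hleaf w hw))

end

end KS137
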